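import Pool.Agent.Lib.MP_666dc0_nt.EP.FD7
import Pool.Agent.Lib.MP_666dc0_nt.EP.U1

/-!
# EH, A1: the trace of one more operator on the generalised eigenspaces
-/

namespace Pool.Agent.Lib.MP_666dc0_nt.EH

open EP

variable {R : Type} {A : Type} [CommRing R] [Group A] {E X : Type} [MulAction A E] [MulAction A X]
  {I : Type} {L : Type} [Field L] [Algebra R L]

/-- The eigensystem `y` together with the eigenvalue `a` of one more operator. -/
def cons (a : L) (y : I → L) : Option I → L := fun o => o.elim a y

/-- The family `c` together with the operator `τ`. -/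
def addOp (τ : Module.End R (X →₀ R)) (c : I → Module.End R (X →₀ R)) :
    Option I → Module.End R (X →₀ R) := fun o => o.elim τ c

theorem cons_eta (y : Option I → L) : cons (y none) (fun i => y (some i)) = y := by
  funext o
  cases o <;> rfl

variable {V : Type} [AddCommGroup V] [Module L V] (ρ : Representation L A V) (E)

/-- The alternating sum of the traces of the operator `τ` on the generalised eigenspaces of the
eigensystem `y`: the sum over the eigenvalues `a` of `τ` of `a` times the Euler characteristic of the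
joint generalised eigenspaces. -/
noncomputable def trE (c : I → Module.End R (X →₀ R)) (τ : Module.End R (X →₀ R)) (y : I → L) : L :=
  ∑ᶠ a : L, a * (eulerMult ρ E (addOp τ c) (cons a y) : L)

variable {E}

theorem exists_of_trE_ne {c : I → Module.End R (X →₀ R)} {τ : Module.End R (X →₀ R)} {y : I → L}
    (h : trE E ρ c τ y ≠ 0) : ∃ a, eulerMult ρ E (addOp τ c) (cons a y) ≠ 0 := by
  by_contra hcon
  push Not at hcon
  apply h
  unfold trE
  rw [finsum_congr (g := fun _ => (0 : L)) fun a => by rw [hcon a, Int.cast_zero, mul_zero]]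
  exact finsum_zero

/-- Semilinearity. -/
theorem trE_semilinear {V' : Type} [AddCommGroup V'] [Module L V'] {ρ' : Representation L A V'}
    {c : I → Module.End R (X →₀ R)} {τ : Module.End R (X →₀ R)} (σ : L ≃+* L)
    (h : ∀ y : Option I → L, eulerMult ρ E (addOp τ c) y =
      eulerMult ρ' E (addOp τ c) fun o => σ (y o)) (y : I → L) :
    trE E ρ' c τ (fun i => σ (y i)) = σ (trE E ρ c τ y) := by
  unfold trE
  have h1 : σ (∑ᶠ a : L, a * (eulerMult ρ E (addOp τ c) (cons a y) : L)) =
      ∑ᶠ a : L, σ (a * (eulerMult ρ E (addOp τ c) (cons a y) : L)) :=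
    AddEquiv.map_finsum σ.toAddEquiv _
  rw [h1]
  have h2 : ∀ a : L, σ (a * (eulerMult ρ E (addOp τ c) (cons a y) : L)) =
      (fun b => b * (eulerMult ρ' E (addOp τ c) (cons b fun i => σ (y i)) : L)) (σ.toEquiv a) := by
    intro a
    change _ = σ a * _
    rw [map_mul, map_intCast, h (cons a y)]
    congr 3
    funext o
    cases o <;> rfl
  rw [finsum_congr h2]
  exact (finsum_comp_equiv σ.toEquiv).symm

variable [Nonempty E] [IsAlgClosed L] [CharZero L] [FiniteDimensional L V]

theorem equi_addOp {c : I → Module.End R (X →₀ R)} (hc : ∀ i, Equi A (c i))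
    {τ : Module.End R (X →₀ R)} (hτ : Equi A τ) (o : Option I) : Equi A (addOp τ c o) := by
  cases o with
  | none => exact hτ
  | some i => exact hc i

theorem comm_addOp {c : I → Module.End R (X →₀ R)} (hcomm : ∀ i j, Commute (c i) (c j))
    {τ : Module.End R (X →₀ R)} (hτ : ∀ i, Commute τ (c i)) (o p : Option I) :
    Commute (addOp τ c o) (addOp τ c p) := by
  cases o with
  | none =>
    cases p with
    | none => exact Commute.refl τ
    | some j => exact hτ j
  | some i =>
    cases p with
    | none => exact (hτ i).symm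
    | some j => exact hcomm i j

theorem finite_trE (hfree : ∀ (a : A) (e : E) (x : X), a • e = e → a • x = x → a = 1)
    (hFD : IsFD R A X) (c : I → Module.End R (X →₀ R)) (hc : ∀ i, Equi A (c i))
    (hcomm : ∀ i j, Commute (c i) (c j)) (τ : Module.End R (X →₀ R)) (hτ : Equi A τ)
    (hτc : ∀ i, Commute τ (c i)) : {y : I → L | trE E ρ c τ y ≠ 0}.Finite := by
  have h1 := finite_euler_fd (E := E) (L := L) hfree hFD (addOp τ c) (equi_addOp hc hτ)
    (comm_addOp hcomm hτc) ρ
  refine (h1.image fun y : Option I → L => fun i => y (some i)).subset ?_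
  intro y hy
  obtain ⟨a, ha⟩ := exists_of_trE_ne ρ hy
  exact ⟨cons a y, ha, rfl⟩

/-- **Trace formula** for the traces of one more operator. -/
theorem exists_trace_one (hfree : ∀ (a : A) (e : E) (x : X), a • e = e → a • x = x → a = 1)
    (hFD : IsFD R A X) (c : I → Module.End R (X →₀ R)) (hc : ∀ i, Equi A (c i))
    (hcomm : ∀ i j, Commute (c i) (c j)) (τ : Module.End R (X →₀ R)) (hτ : Equi A τ)
    (hτc : ∀ i, Commute τ (c i)) : ∃ m : ℕ, 0 < m ∧ ∀ t : MvPolynomial I R,
    ∃ ν : A →₀ R, ∀ (V : Type) [AddCommGroup V] [Module L V] [FiniteDimensional L V]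
      (ρ : Representation L A V) (s : Finset (I → L)), (∀ y, trE E ρ c τ y ≠ 0 → y ∈ s) →
        (m : L) * ∑ y ∈ s, trE E ρ c τ y * MvPolynomial.aeval y t =
            ν.sum fun a x => algebraMap R L x * LinearMap.trace L V (ρ a) := by
  classical
  obtain ⟨m, hm, h⟩ := exists_trace_fd (E := E) (L := L) hfree hFD (addOp τ c) (equi_addOp hc hτ)
    (comm_addOp hcomm hτc)
  refine ⟨m, hm, fun t => ?_⟩
  obtain ⟨ν, hν⟩ := h (MvPolynomial.X none * MvPolynomial.rename some t)
  refine ⟨ν, fun V _ _ _ ρ s hs => ?_⟩
  rw [← hν V ρ]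
  congr 1
  set F := (finite_euler_fd (E := E) (L := L) hfree hFD (addOp τ c) (equi_addOp hc hτ)
    (comm_addOp hcomm hτc) ρ).toFinset with hF
  have hmem : ∀ y, y ∈ F ↔ eulerMult ρ E (addOp τ c) y ≠ 0 := by
    intro y
    rw [hF, Set.Finite.mem_toFinset, Set.mem_setOf_eq]
  let π : (Option I → L) → (I → L) := fun y i => y (some i)
  have hval : ∀ y : Option I → L, MvPolynomial.aeval y
      (MvPolynomial.X none * MvPolynomial.rename some t : MvPolynomial (Option I) R) =
      y none * MvPolynomial.aeval (π y) t := by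
    intro y
    rw [map_mul, MvPolynomial.aeval_X, MvPolynomial.aeval_rename]
    rfl
  have htr : ∀ y : I → L, trE E ρ c τ y = ∑ z ∈ F.filter (fun z => π z = y),
      z none * (eulerMult ρ E (addOp τ c) z : L) := by
    intro y
    have hinj : Set.InjOn (fun z : Option I → L => z none)
        ((F.filter fun z => π z = y : Finset (Option I → L)) : Set (Option I → L)) := by
      intro z hz z' hz' hzz
      rw [Finset.mem_coe, Finset.mem_filter] at hz hz'
      rw [← cons_eta z, ← cons_eta z']
      have h1 : (fun i => z (some i)) = y := hz.2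
      have h2 : (fun i => z' (some i)) = y := hz'.2
      have h3 : z none = z' none := hzz
      rw [h1, h2, h3]
    have h4 : trE E ρ c τ y = ∑ a ∈ (F.filter fun z => π z = y).image (fun z => z none),
        a * (eulerMult ρ E (addOp τ c) (cons a y) : L) := by
      refine finsum_eq_sum_of_support_subset _ ?_
      intro a ha
      have h5 : eulerMult ρ E (addOp τ c) (cons a y) ≠ 0 := by
        intro h0
        apply ha
        change a * (eulerMult ρ E (addOp τ c) (cons a y) : L) = 0
        rw [h0, Int.cast_zero, mul_zero]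
      rw [Finset.mem_coe, Finset.mem_image]
      exact ⟨cons a y, Finset.mem_filter.2 ⟨(hmem _).2 h5, rfl⟩, rfl⟩
    rw [h4, Finset.sum_image hinj]
    refine Finset.sum_congr rfl fun z hz => ?_
    have h6 : (fun i => z (some i)) = y := (Finset.mem_filter.1 hz).2
    have h7 : cons (z none) y = z := by
      rw [← h6]
      exact cons_eta z
    rw [h7]
  have h8 : ∑ z ∈ F, (eulerMult ρ E (addOp τ c) z : L) * MvPolynomial.aeval z
      (MvPolynomial.X none * MvPolynomial.rename some t : MvPolynomial (Option I) R) =
      ∑ y ∈ s ∪ F.image π, trE E ρ c τ y * MvPolynomial.aeval y t := by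
    rw [← Finset.sum_fiberwise_of_maps_to (s := F) (t := s ∪ F.image π) (g := π)
      (fun z hz => Finset.mem_union_right _ (Finset.mem_image_of_mem _ hz))]
    refine Finset.sum_congr rfl fun y _ => ?_
    rw [htr y, Finset.sum_mul]
    refine Finset.sum_congr rfl fun z hz => ?_
    rw [hval z, (Finset.mem_filter.1 hz).2]
    ring
  rw [h8]
  refine Finset.sum_subset Finset.subset_union_left fun y _ hy => ?_
  have h9 : trE E ρ c τ y = 0 := by
    by_contra h0
    exact hy (hs y h0)
  rw [h9, zero_mul]

end Pool.Agent.Lib.MP_666dc0_nt.EH
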