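import Pool.Agent.Lib.MP_666dc0_nt.EP.T3b
import Pool.Agent.Lib.MP_666dc0_nt.EP.T2c
import Pool.Agent.Lib.MP_666dc0_nt.EH.A1

/-!
# EH, A2: operators at the bad places
-/

open NumberField IsDedekindDomain
open scoped NumberField

namespace Pool.Agent.Lib.MP_666dc0_nt.EH

open WL EP

variable {F : Type} [Field F] [NumberField F] {n : ℕ} {D : Datum F n} {ℓ : ℕ} [Fact ℓ.Prime]
  {L : Level D ℓ} {ι : ℂ ≃+* PadicAlgCl ℓ}

/-- The endomorphism `τ` of `ℤ_(ℓ)[G(𝔸_f) / U]` is equivariant, commutes with the Hecke operators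
outside `S`, and does not change the components above `ℓ`. -/
structure IsBad (L : Level D ℓ) (S : Finset (HeightOneSpectrum (𝓞 F)))
    (τ : Module.End (Zl ℓ) (L.X →₀ Zl ℓ)) : Prop where
  equi : Equi (D.Rat × L.K) τ
  comm : ∀ i : Idx L S, Commute τ (L.op i.2)
  supp : ∀ (g : D.Ad), ∀ x ∈ (τ (Finsupp.single (L.cls g) 1)).support, ∃ b : D.Ad,
    x = L.cls (g * b) ∧ ∀ v : HeightOneSpectrum (𝓞 F), (ℓ : 𝓞 F) ∈ v.asIdeal → TrivialAt v b

/-- The twisting automorphisms `rho(hat g)⁻¹`. -/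
private noncomputable def Phi (C : Coeff L) (H : HatData F ℓ ι) (x : L.X) : C.W ≃ₗ[ℂ] C.W :=
  LinearEquiv.ofLinearMap (C.rho (H.hat D (Quotient.out x : D.Ad))⁻¹)
    (C.rho (H.hat D (Quotient.out x : D.Ad)))
    (by
      have h := map_mul C.rho (H.hat D (Quotient.out x : D.Ad))⁻¹ (H.hat D (Quotient.out x : D.Ad))
      rw [inv_mul_cancel, map_one] at h
      exact h.symm)
    (by
      have h := map_mul C.rho (H.hat D (Quotient.out x : D.Ad)) (H.hat D (Quotient.out x : D.Ad))⁻¹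
      rw [mul_inv_cancel, map_one] at h
      exact h.symm)

private theorem Phi_cls (C : Coeff L) (H : HatData F ℓ ι) (g : D.Ad) (v : C.W) :
    Phi C H (L.cls g) v = C.rho (H.hat D g)⁻¹ v := by
  change C.rho (H.hat D (Quotient.out (L.cls g) : D.Ad))⁻¹ v = _
  have h1 : L.cls (Quotient.out (L.cls g) : D.Ad) = L.cls g := L.cls_out _
  have h2 : (Quotient.out (L.cls g) : D.Ad)⁻¹ * g ∈ L.U := L.cls_eq_iff.1 h1
  have h3 : H.hat D ((Quotient.out (L.cls g) : D.Ad)⁻¹ * g) = 1 :=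
    hat_eq_one H fun v hv => L.tame _ h2 v hv
  rw [map_mul, map_inv, inv_mul_eq_one] at h3
  rw [h3]

/-- The `ℓ`-adic twist. -/
theorem euler_eq_hat (C : Coeff L) (H : HatData F ℓ ι) (S : Finset (HeightOneSpectrum (𝓞 F)))
    (hSl : ∀ v : HeightOneSpectrum (𝓞 F), (ℓ : 𝓞 F) ∈ v.asIdeal → v ∈ S)
    (hgood : ∀ v, v ∉ S → L.IsGoodAt v) {τ : Module.End (Zl ℓ) (L.X →₀ Zl ℓ)}
    (hτ : IsBad L S τ) (lam : Option (Idx L S) → ℂ) :
    eulerMult C.rep L.E (addOp τ fun i : Idx L S => L.op i.2) lam =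
      eulerMult (C.hrep H) L.E (addOp τ fun i : Idx L S => L.op i.2) lam := by
  refine eulerMult_twist (Φ := Phi C H) ?_ _ ?_ lam
  · intro a x v
    obtain ⟨g, rfl⟩ := L.exists_cls x
    rw [L.smul_cls, Phi_cls, Phi_cls]
    have e1 : H.hat D (D.toAd a.1 * g * (a.2 : D.Ad)⁻¹) =
        D.toCpx a.1 * H.hat D g * (H.hat D (a.2 : D.Ad))⁻¹ := by
      rw [map_mul, map_mul, map_inv, hat_toAd]
    rw [e1]
    have e2 : (D.toCpx a.1 * H.hat D g * (H.hat D (a.2 : D.Ad))⁻¹)⁻¹ * D.toCpx a.1 =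
        H.hat D (a.2 : D.Ad) * (H.hat D g)⁻¹ := by group
    change C.rho _ ((C.rho (D.toCpx a.1) * C.sig a.2) v) =
      (C.rho (H.hat D a.2) * C.sig a.2) (C.rho (H.hat D g)⁻¹ v)
    have e3 : C.rho (D.toCpx a.1 * H.hat D g * (H.hat D (a.2 : D.Ad))⁻¹)⁻¹ *
        (C.rho (D.toCpx a.1) * C.sig a.2) =
        C.rho (H.hat D a.2) * C.sig a.2 * C.rho (H.hat D g)⁻¹ := by
      rw [← mul_assoc, ← map_mul, e2, map_mul, mul_assoc, mul_assoc, (C.comm _ _).eq]
    exact LinearMap.congr_fun e3 v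
  · intro o x x' hx'
    obtain ⟨g, rfl⟩ := L.exists_cls x
    obtain ⟨b, hb, hbl⟩ : ∃ b : D.Ad, x' = L.cls (g * b) ∧
        ∀ v : HeightOneSpectrum (𝓞 F), (ℓ : 𝓞 F) ∈ v.asIdeal → TrivialAt v b := by
      cases o with
      | none => exact hτ.supp g x' hx'
      | some i =>
        have hvS : i.1.1 ∉ S := i.1.2
        have hvl : (ℓ : 𝓞 F) ∉ i.1.1.asIdeal := fun h' => hvS (hSl _ h')
        change x' ∈ (L.op i.2 (Finsupp.single (L.cls g) 1)).support at hx'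
        rw [L.op_single (hgood _ hvS)] at hx'
        obtain ⟨c, hc⟩ : ∃ c : locSub D i.1.1 ⧸ L.U.subgroupOf (locSub D i.1.1),
            x' = L.cls (g * ((Quotient.out c : locSub D i.1.1) : D.Ad)) := by
          by_contra hcon
          push Not at hcon
          rw [Finsupp.mem_support_iff] at hx'
          refine hx' ?_
          rw [Finsupp.sum_apply]
          refine Finset.sum_eq_zero fun c _ => ?_
          exact Finsupp.single_eq_of_ne (hcon c)
        exact ⟨_, hc, fun w hw => (Quotient.out c : locSub D i.1.1).2 w fun e => hvl (e ▸ hw)⟩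
    rw [hb]
    ext v
    have h1 : H.hat D b = 1 := hat_eq_one H hbl
    rw [Phi_cls, Phi_cls, map_mul, h1, mul_one]

end Pool.Agent.Lib.MP_666dc0_nt.EH
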