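import Mathlib

/-!
# EH, C1: the trace as the sum of the eigenvalues
-/

namespace Pool.Agent.Lib.MP_666dc0_nt.EH

section

variable {L W : Type} [Field L] [AddCommGroup W] [Module L W]

/-- The trace is the sum of the eigenvalues with multiplicities. -/
theorem finsum_eigen [IsAlgClosed L] [FiniteDimensional L W] (T : Module.End L W) :
    ∑ᶠ a : L, (Module.finrank L (T.maxGenEigenspace a) : L) * a = LinearMap.trace L W T := by
  classical
  have hind : iSupIndep T.maxGenEigenspace := Module.End.independent_maxGenEigenspace T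
  have hsup : ⨆ a, T.maxGenEigenspace a = ⊤ := Module.End.iSup_maxGenEigenspace_eq_top T
  have hfin : {a | T.maxGenEigenspace a ≠ ⊥}.Finite :=
    WellFoundedGT.finite_ne_bot_of_iSupIndep hind
  have hmap : ∀ a, Set.MapsTo T (T.maxGenEigenspace a) (T.maxGenEigenspace a) := fun a =>
    Module.End.mapsTo_maxGenEigenspace_of_comm (Commute.refl T) a
  have hint : DirectSum.IsInternal T.maxGenEigenspace :=
    DirectSum.isInternal_submodule_of_iSupIndep_of_iSup_eq_top hind hsup
  have h1 : ∀ a, LinearMap.trace L _ (T.restrict (hmap a)) =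
      (Module.finrank L (T.maxGenEigenspace a) : L) * a := by
    intro a
    have hS : ∀ w ∈ T.maxGenEigenspace a, (T - a • LinearMap.id : Module.End L W) w ∈
        T.maxGenEigenspace a := fun w hw =>
      Submodule.sub_mem _ (hmap a hw) (Submodule.smul_mem _ _ hw)
    have hnil : IsNilpotent ((T - a • LinearMap.id : Module.End L W).restrict hS) :=
      Module.End.isNilpotent_restrict_maxGenEigenspace_sub_algebraMap T a
    have h0 : LinearMap.trace L _ ((T - a • LinearMap.id : Module.End L W).restrict hS) = 0 :=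
      (LinearMap.isNilpotent_trace_of_isNilpotent hnil).eq_zero
    have h3 : T.restrict (hmap a) =
        (T - a • LinearMap.id : Module.End L W).restrict hS + a • LinearMap.id := by
      apply LinearMap.ext
      intro x
      apply Subtype.ext
      change T x = (T x - a • (x : W)) + a • (x : W)
      rw [sub_add_cancel]
    rw [h3, map_add, h0, zero_add, map_smul, LinearMap.trace_id, smul_eq_mul, mul_comm]
  rw [LinearMap.trace_eq_sum_trace_restrict' hint hfin hmap]
  simp only [h1]
  refine finsum_eq_sum_of_support_subset _ fun a ha => ?_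
  rw [Set.Finite.coe_toFinset]
  intro h
  apply ha
  change (Module.finrank L (T.maxGenEigenspace a) : L) * a = 0
  rw [h, finrank_bot, Nat.cast_zero, zero_mul]

end

section

variable {L M : Type} [Field L] [AddCommGroup M] [Module L M] (Z B : Submodule L M)

/-- The operator induced by `S` on `Z / (B ∩ Z)`. -/
noncomputable def ind (S : Module.End L M) (hZ : ∀ u ∈ Z, S u ∈ Z) (hB : ∀ u ∈ B, S u ∈ B) :
    Module.End L (Z ⧸ B.submoduleOf Z) :=
  (B.submoduleOf Z).mapQ (B.submoduleOf Z) (S.restrict hZ) fun u hu => hB _ hu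

variable {Z B} {S : Module.End L M} {hZ : ∀ u ∈ Z, S u ∈ Z} {hB : ∀ u ∈ B, S u ∈ B}

theorem ind_mk (u : Z) : ind Z B S hZ hB (Submodule.Quotient.mk u) =
    Submodule.Quotient.mk ⟨S u, hZ u u.2⟩ := rfl

theorem mem_comap_iff (hB : ∀ u ∈ B, S u ∈ B) (y : L) (u : M) :
    u ∈ (⨆ N : ℕ, B.comap ((S - y • LinearMap.id) ^ N)) ↔
      ∃ N : ℕ, ((S - y • LinearMap.id : Module.End L M) ^ N) u ∈ B := by
  have hmono : Monotone fun N : ℕ => B.comap ((S - y • LinearMap.id) ^ N) := by
    apply monotone_nat_of_le_succ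
    intro N v hv
    rw [Submodule.mem_comap] at hv ⊢
    rw [pow_succ']
    exact B.sub_mem (hB _ hv) (B.smul_mem y hv)
  rw [Submodule.mem_iSup_of_directed _ hmono.directed_le]
  rfl

theorem exists_pow (y : L) (N : ℕ) (u : Z) :
    ∃ w : Z, (w : M) = ((S - y • LinearMap.id : Module.End L M) ^ N) u ∧
      ((ind Z B S hZ hB - y • (1 : Module.End L (Z ⧸ B.submoduleOf Z))) ^ N)
        (Submodule.Quotient.mk u) = Submodule.Quotient.mk w := by
  induction N with
  | zero => exact ⟨u, rfl, rfl⟩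
  | succ N ih =>
    obtain ⟨w, hw1, hw2⟩ := ih
    refine ⟨⟨S w, hZ w w.2⟩ - y • w, ?_, ?_⟩
    · rw [pow_succ']
      change S (w : M) - y • (w : M) = (S - y • LinearMap.id : Module.End L M)
        (((S - y • LinearMap.id : Module.End L M) ^ N) u)
      rw [← hw1]
      rfl
    · rw [pow_succ']
      change (ind Z B S hZ hB - y • (1 : Module.End L (Z ⧸ B.submoduleOf Z)))
        (((ind Z B S hZ hB - y • (1 : Module.End L (Z ⧸ B.submoduleOf Z))) ^ N)
          (Submodule.Quotient.mk u)) = _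
      rw [hw2, LinearMap.sub_apply, ind_mk]
      rfl

theorem mk_mem_iff (y : L) (u : Z) : (Submodule.Quotient.mk u : Z ⧸ B.submoduleOf Z) ∈
      Module.End.maxGenEigenspace (ind Z B S hZ hB) y ↔
        (u : M) ∈ (⨆ N : ℕ, B.comap ((S - y • LinearMap.id) ^ N)) := by
  rw [mem_comap_iff hB, Module.End.mem_maxGenEigenspace]
  refine exists_congr fun N => ?_
  obtain ⟨w, hw1, hw2⟩ := exists_pow (hZ := hZ) (hB := hB) y N u
  rw [hw2, Submodule.Quotient.mk_eq_zero, ← hw1]
  rfl

/-- The dimension of a generalised eigenspace. -/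
theorem finrank_gen (y : L) (G : Submodule L M)
    (hG : G = Z ⊓ ⨆ N : ℕ, B.comap ((S - y • LinearMap.id) ^ N)) :
    Module.finrank L (G ⧸ B.submoduleOf G) =
      Module.finrank L (Module.End.maxGenEigenspace (ind Z B S hZ hB) y) := by
  have hGZ : G ≤ Z := by
    rw [hG]
    exact inf_le_left
  let φ : G →ₗ[L] (Z ⧸ B.submoduleOf Z) := (B.submoduleOf Z).mkQ ∘ₗ Submodule.inclusion hGZ
  have hker : LinearMap.ker φ = B.submoduleOf G := by
    ext u
    rw [LinearMap.mem_ker]
    change (Submodule.Quotient.mk (Submodule.inclusion hGZ u) : Z ⧸ B.submoduleOf Z) = 0 ↔ _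
    rw [Submodule.Quotient.mk_eq_zero]
    rfl
  have hrange : LinearMap.range φ = Module.End.maxGenEigenspace (ind Z B S hZ hB) y := by
    ext x
    obtain ⟨u, rfl⟩ := Submodule.Quotient.mk_surjective _ x
    constructor
    · rintro ⟨v, hv⟩
      rw [← hv]
      change (Submodule.Quotient.mk (Submodule.inclusion hGZ v) : Z ⧸ B.submoduleOf Z) ∈ _
      rw [mk_mem_iff]
      have h1 : (v : M) ∈ Z ⊓ ⨆ N : ℕ, B.comap ((S - y • LinearMap.id) ^ N) := by
        rw [← hG]
        exact v.2
      exact h1.2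
    · intro h
      have h1 : (u : M) ∈ G := by
        rw [hG]
        exact ⟨u.2, (mk_mem_iff y u).1 h⟩
      exact ⟨⟨u, h1⟩, rfl⟩
  rw [← hker, ← hrange]
  exact (φ.quotKerEquivRange).finrank_eq

/-- The sum of the eigenvalues with multiplicities. -/
theorem finsum_finrank_gen [IsAlgClosed L] [FiniteDimensional L (Z ⧸ B.submoduleOf Z)]
    (hZ : ∀ u ∈ Z, S u ∈ Z) (hB : ∀ u ∈ B, S u ∈ B) (G : L → Submodule L M)
    (hG : ∀ y, G y = Z ⊓ ⨆ N : ℕ, B.comap ((S - y • LinearMap.id) ^ N)) :
    ∑ᶠ y : L, (Module.finrank L (G y ⧸ B.submoduleOf (G y)) : L) * y =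
      LinearMap.trace L _ (ind Z B S hZ hB) := by
  rw [← finsum_eigen]
  exact finsum_congr fun y => by rw [finrank_gen (hZ := hZ) (hB := hB) y (G y) (hG y)]

/-- Linearity of the trace. -/
theorem trace_ind_sum {J : Type} [Fintype J] (a : J → L) (T : J → Module.End L M)
    (hTZ : ∀ j, ∀ u ∈ Z, T j u ∈ Z) (hTB : ∀ j, ∀ u ∈ B, T j u ∈ B)
    (hS : S = ∑ j, a j • T j) (hZ : ∀ u ∈ Z, S u ∈ Z) (hB : ∀ u ∈ B, S u ∈ B) :
    LinearMap.trace L _ (ind Z B S hZ hB) =
      ∑ j, a j * LinearMap.trace L _ (ind Z B (T j) (hTZ j) (hTB j)) := by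
  have h1 : ind Z B S hZ hB = ∑ j, a j • ind Z B (T j) (hTZ j) (hTB j) := by
    apply LinearMap.ext
    intro x
    obtain ⟨u, rfl⟩ := Submodule.Quotient.mk_surjective _ x
    rw [LinearMap.sum_apply, ind_mk]
    simp only [LinearMap.smul_apply, ind_mk]
    have h2 : ∀ j, a j • (Submodule.Quotient.mk ⟨T j u, hTZ j u u.2⟩ : Z ⧸ B.submoduleOf Z) =
        (B.submoduleOf Z).mkQ (a j • ⟨T j u, hTZ j u u.2⟩) := fun j => rfl
    simp only [h2]
    rw [← map_sum]
    change (B.submoduleOf Z).mkQ _ = _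
    congr 1
    apply Subtype.ext
    change S u = _
    rw [AddSubmonoidClass.coe_finsetSum, hS, LinearMap.sum_apply]
    rfl
  rw [h1, map_sum]
  simp only [map_smul, smul_eq_mul]

end

end Pool.Agent.Lib.MP_666dc0_nt.EH
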