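import Pool.Agent.Lib.MP_666dc0_nt.EP.T8
import Pool.Agent.Lib.MP_666dc0_nt.EP.T9c
import Pool.Agent.Lib.MP_666dc0_nt.EP.U4
import Pool.Agent.Lib.MP_666dc0_nt.EH.A2

/-!
# EH, A3: the trace formula and control
-/

open NumberField IsDedekindDomain
open scoped NumberField

namespace Pool.Agent.Lib.MP_666dc0_nt.EH

open WL EP

variable {F : Type} [Field F] [NumberField F] {n : ℕ} {D : Datum F n} {ℓ : ℕ} [Fact ℓ.Prime]
  {L : Level D ℓ} {S : Finset (HeightOneSpectrum (𝓞 F))} {ι : ℂ ≃+* PadicAlgCl ℓ}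
  {τ : Module.End (Zl ℓ) (L.X →₀ Zl ℓ)}

/-- The alternating sum of the traces of `τ` on the generalised eigenspaces of `y` in the cohomology
with coefficients in `C`. -/
noncomputable def trC (S : Finset (HeightOneSpectrum (𝓞 F))) (τ : Module.End (Zl ℓ) (L.X →₀ Zl ℓ))
    (C : Coeff L) (y : Idx L S → ℂ) : ℂ :=
  trE L.E C.rep (fun i : Idx L S => L.op i.2) τ y

/-- The hypotheses on the level `L`, the set of places `S` and the operator `τ`. -/
structure SetupH (L : Level D ℓ) (S : Finset (HeightOneSpectrum (𝓞 F)))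
    (τ : Module.End (Zl ℓ) (L.X →₀ Zl ℓ)) : Prop where
  base : Setup L S
  bad : IsBad L S τ

theorem SetupH.finite (h : SetupH L S τ) (C : Coeff L) :
    {y : Idx L S → ℂ | trC S τ C y ≠ 0}.Finite :=
  finite_trE C.rep L.free h.base.fd (fun i : Idx L S => L.op i.2) h.base.equi
    (L.commute_idx S h.base.good) τ h.bad.equi h.bad.comm

/-- The eigensystems with non-zero trace. -/
noncomputable def SetupH.sys (h : SetupH L S τ) (C : Coeff L) : Finset (Idx L S → ℂ) :=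
  (h.finite C).toFinset

theorem SetupH.mem_sys (h : SetupH L S τ) {C : Coeff L} {y : Idx L S → ℂ} :
    y ∈ h.sys C ↔ trC S τ C y ≠ 0 := by
  rw [SetupH.sys, Set.Finite.mem_toFinset, Set.mem_ofPred_eq]

/-- The alternating sum of the traces of `τ t` for the polynomial `t` in the Hecke operators. -/
noncomputable def SetupH.tau (h : SetupH L S τ) (C : Coeff L)
    (t : MvPolynomial (Idx L S) (Zl ℓ)) : ℂ :=
  ∑ y ∈ h.sys C, trC S τ C y * MvPolynomial.aeval y t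

theorem SetupH.exists_trace (h : SetupH L S τ) (H : HatData F ℓ ι) : ∃ m : ℕ, 0 < m ∧
    ∀ t : MvPolynomial (Idx L S) (Zl ℓ), ∃ ν : L.K →₀ Zl ℓ, ∀ C : Coeff L,
      (m : ℂ) * h.tau C t = ν.sum fun k x => ((x : ℚ) : ℂ) *
        LinearMap.trace ℂ C.W (C.rho (H.hat D k) * C.sig k) := by
  obtain ⟨m, hm, hm'⟩ := exists_trace_one (L := ℂ) (E := L.E) L.free h.base.fd
    (fun i : Idx L S => L.op i.2) h.base.equi (L.commute_idx S h.base.good) τ h.bad.equi h.bad.comm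
  refine ⟨m, hm, fun t => ?_⟩
  obtain ⟨ν₀, h₀⟩ := hm' t
  refine ⟨ν₀.mapDomain Prod.snd, fun C => ?_⟩
  have h2 : ∀ y : Idx L S → ℂ, trE L.E (C.hrep H) (fun i : Idx L S => L.op i.2) τ y =
      trC S τ C y := by
    intro y
    refine finsum_congr fun a => ?_
    rw [euler_eq_hat C H S h.base.sl h.base.good h.bad]
  have h1 := h₀ C.W (C.hrep H) (h.sys C) (fun y hy => h.mem_sys.2 (by rwa [← h2 y]))
  simp only [h2] at h1
  have h3 : h.tau C t = ∑ y ∈ h.sys C, trC S τ C y * MvPolynomial.aeval y t := rfl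
  rw [h3, h1, Finsupp.sum_mapDomain_index]
  · rfl
  · intro k
    rw [ZeroMemClass.coe_zero, Rat.cast_zero, zero_mul]
  · intro k x y
    rw [AddMemClass.coe_add, Rat.cast_add, add_mul]

theorem SetupH.tau_eq_chi (h : SetupH L S τ) (H : HatData F ℓ ι) : ∃ m : ℕ, 0 < m ∧
    ∀ t : MvPolynomial (Idx L S) (Zl ℓ), ∃ ν : L.K →₀ Zl ℓ, ∀ C : Coeff L,
      (m : ℂ) * h.tau C t = ν.sum fun k x => ((x : ℚ) : ℂ) * ι.symm (C.chi H k) := by
  obtain ⟨m, hm, hm'⟩ := h.exists_trace H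
  refine ⟨m, hm, fun t => ?_⟩
  obtain ⟨ν, hν⟩ := hm' t
  refine ⟨ν, fun C => ?_⟩
  rw [hν C]
  unfold Coeff.chi
  simp only [RingEquiv.symm_apply_apply]

/-- The function `t ↦ ι (tau C t)` as a combination of homomorphisms. -/
theorem SetupH.exists_homs (h : SetupH L S τ) (ι : ℂ ≃+* PadicAlgCl ℓ) (C : Coeff L) :
    ∃ (s : Finset (MvPolynomial (Idx L S) (Zl ℓ) →+* PadicAlgCl ℓ))
      (e : (MvPolynomial (Idx L S) (Zl ℓ) →+* PadicAlgCl ℓ) → PadicAlgCl ℓ),
      (∀ χ, χ ∈ s ↔ ∃ y, trC S τ C y ≠ 0 ∧ χ = homOf ι y) ∧ (∀ χ ∈ s, e χ ≠ 0) ∧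
      ∀ t, ι (h.tau C t) = ∑ χ ∈ s, e χ * χ t := by
  classical
  have hinj := homOf_injective (L := L) (S := S) ι
  have hleft : ∀ y, Function.invFun (homOf (L := L) (S := S) ι) (homOf ι y) = y :=
    Function.leftInverse_invFun hinj
  refine ⟨(h.sys C).image (homOf ι),
    fun χ => ι (trC S τ C (Function.invFun (homOf ι) χ)), ?_, ?_, ?_⟩
  · intro χ
    rw [Finset.mem_image]
    constructor
    · rintro ⟨y, hy, rfl⟩
      exact ⟨y, h.mem_sys.1 hy, rfl⟩
    · rintro ⟨y, hy, rfl⟩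
      exact ⟨y, h.mem_sys.2 hy, rfl⟩
  · intro χ hχ
    obtain ⟨y, hy, rfl⟩ := Finset.mem_image.1 hχ
    beta_reduce
    rw [hleft, map_ne_zero_iff ι ι.injective]
    exact h.mem_sys.1 hy
  · intro t
    rw [SetupH.tau, map_sum, Finset.sum_image (fun a _ b _ hab => hinj hab)]
    refine Finset.sum_congr rfl fun y _ => ?_
    beta_reduce
    rw [hleft, map_mul, homOf_apply]

theorem SetupH.exists_bound (h : SetupH L S τ) (H : HatData F ℓ ι) (C : Coeff L) :
    ∃ M : ℝ, ∀ t, ‖ι (h.tau C t)‖ ≤ M := by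
  obtain ⟨M, hM0, hM⟩ := C.exists_bound_chi H
  obtain ⟨m, hm, hm'⟩ := h.tau_eq_chi H
  have hm0 : 0 < ‖ι (m : ℂ)‖ := norm_natCast_pos hm
  refine ⟨M / ‖ι (m : ℂ)‖, fun t => ?_⟩
  obtain ⟨ν, hν⟩ := hm' t
  rw [le_div_iff₀' hm0, ← norm_mul, ← map_mul, hν C]
  refine norm_sum_le ν _ hM0.le fun k => ?_
  rw [RingEquiv.apply_symm_apply]
  exact hM k

/-- Integrality. -/
theorem SetupH.norm_le_one (h : SetupH L S τ) (H : HatData F ℓ ι) {C : Coeff L} {y : Idx L S → ℂ}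
    (hy : trC S τ C y ≠ 0) (t : MvPolynomial (Idx L S) (Zl ℓ)) : ‖homOf ι y t‖ ≤ 1 := by
  obtain ⟨M, hM⟩ := h.exists_bound H C
  obtain ⟨s, e, h1, h2, h4⟩ := h.exists_homs ι C
  refine norm_le_one_of_sum_bounded s e h2 M (fun t => ?_) (homOf ι y) ((h1 _).2 ⟨y, hy, rfl⟩) t
  rw [← h4 t]
  exact hM t

/-- The eigenvalues are in a finite extension of `ℚ_ℓ`. -/
theorem SetupH.exists_field (h : SetupH L S τ) (H : HatData F ℓ ι) {C : Coeff L} {y : Idx L S → ℂ}
    (hy : trC S τ C y ≠ 0) : ∃ E : IntermediateField ℚ_[ℓ] (PadicAlgCl ℓ),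
      FiniteDimensional ℚ_[ℓ] E ∧ ∀ t, homOf ι y t ∈ E := by
  obtain ⟨E₀, hE₀, hE⟩ := C.exists_field H
  obtain ⟨s, e, hs, he, hsum⟩ := h.exists_homs ι C
  obtain ⟨m, hm, hm'⟩ := h.exists_trace H
  have htau : ∀ t, ∑ χ ∈ s, e χ * χ t ∈ E₀ := by
    intro t
    rw [← hsum t]
    obtain ⟨ν, hν⟩ := hm' t
    have hm1 : ι (m : ℂ) = (m : PadicAlgCl ℓ) := map_natCast ι m
    have hm0 : (m : PadicAlgCl ℓ) ≠ 0 := Nat.cast_ne_zero.2 hm.ne'
    have h0 : ι (h.tau C t) = (m : PadicAlgCl ℓ)⁻¹ * ι ((m : ℂ) * h.tau C t) := by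
      rw [map_mul, hm1, inv_mul_cancel_left₀ hm0]
    rw [h0]
    refine mul_mem (inv_mem (natCast_mem E₀ m)) ?_
    rw [hν C, Finsupp.sum, map_sum]
    refine sum_mem fun k _ => ?_
    rw [map_mul]
    refine mul_mem ?_ (hE k)
    have h1 : ι (((ν k : ℚ) : ℂ)) = (((ν k : ℚ)) : PadicAlgCl ℓ) := map_ratCast ι _
    rw [h1]
    exact SubfieldClass.ratCast_mem E₀ _
  have hmem : homOf ι y ∈ s := (hs _).2 ⟨y, hy, rfl⟩
  obtain ⟨E, h1, -, h2⟩ := exists_finite_field s e he E₀ htau (homOf ι y) hmem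
  exact ⟨E, h1, h2⟩

/-- Approximation of the characters gives approximation of the traces. -/
theorem SetupH.approx_tau (h : SetupH L S τ) (H : HatData F ℓ ι) : ∃ c : ℝ, 0 < c ∧
    ∀ (J : Type) [Fintype J] (C : Coeff L) (C' : J → Coeff L) (b : J → PadicAlgCl ℓ) (δ : ℝ),
      0 ≤ δ → (∀ k, ‖C.chi H k - ∑ j, b j * (C' j).chi H k‖ ≤ δ) →
      ∀ t, c * ‖ι (h.tau C t - ∑ j, ι.symm (b j) * h.tau (C' j) t)‖ ≤ δ := by
  obtain ⟨m₀, hm₀, hm₀'⟩ := h.tau_eq_chi H
  have hm0 : 0 < ‖ι (m₀ : ℂ)‖ := norm_natCast_pos hm₀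
  refine ⟨_, hm0, fun J _ C C' b δ hδ happ t => ?_⟩
  obtain ⟨ν, hν⟩ := hm₀' t
  have heq : (m₀ : ℂ) * (h.tau C t - ∑ j, ι.symm (b j) * h.tau (C' j) t) = ν.sum fun k x =>
      ((x : ℚ) : ℂ) * ι.symm (C.chi H k - ∑ j, b j * (C' j).chi H k) := by
    rw [mul_sub, Finset.mul_sum, hν C]
    simp only [mul_left_comm (m₀ : ℂ)]
    simp only [hν (C' _)]
    simp only [Finsupp.sum, Finset.mul_sum, map_sub, map_sum, map_mul]
    rw [Finset.sum_comm, ← Finset.sum_sub_distrib]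
    refine Finset.sum_congr rfl fun k _ => ?_
    rw [mul_sub, Finset.mul_sum]
    congr 1
    refine Finset.sum_congr rfl fun j _ => ?_
    ring
  rw [← norm_mul, ← map_mul, heq]
  refine norm_sum_le ν _ hδ fun k => ?_
  rw [RingEquiv.apply_symm_apply]
  exact happ k

/-- The character of `C` on `K` is a limit of linear combinations of the characters of the members of
`𝓒`. -/
def Approx (H : HatData F ℓ ι) (𝓒 : Coeff L → Prop) (C : Coeff L) : Prop :=
  ∀ ε : ℝ, 0 < ε → ∃ (J : Type) (_ : Fintype J) (C' : J → Coeff L) (b : J → PadicAlgCl ℓ),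
    (∀ j, 𝓒 (C' j)) ∧ ∀ k, ‖C.chi H k - ∑ j, b j * (C' j).chi H k‖ ≤ ε

theorem Approx.trans {H : HatData F ℓ ι} {𝓒 𝓒' : Coeff L → Prop} {C : Coeff L}
    (h : Approx H 𝓒 C) (h' : ∀ C', 𝓒 C' → Approx H 𝓒' C') : Approx H 𝓒' C := by
  classical
  intro ε hε
  obtain ⟨J, _, C₁, b, h1, h2⟩ := h ε hε
  have hB : ∀ j, 0 < ε / (1 + ‖b j‖) := fun j => div_pos hε (by positivity)
  choose J' iJ C₂ b' h3 h4 using fun j => h' (C₁ j) (h1 j) _ (hB j)
  refine ⟨Σ j, J' j, inferInstance, fun p => C₂ p.1 p.2, fun p => b p.1 * b' p.1 p.2,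
    fun p => h3 p.1 p.2, fun k => ?_⟩
  have h5 : C.chi H k - ∑ p : (Σ j, J' j), b p.1 * b' p.1 p.2 * (C₂ p.1 p.2).chi H k =
      (C.chi H k - ∑ j, b j * (C₁ j).chi H k) +
        ∑ j, b j * ((C₁ j).chi H k - ∑ i, b' j i * (C₂ j i).chi H k) := by
    rw [Fintype.sum_sigma]
    simp only [mul_sub, Finset.mul_sum, Finset.sum_sub_distrib, mul_assoc]
    ring
  rw [h5]
  refine (IsUltrametricDist.norm_add_le_max _ _).trans (max_le (h2 k) ?_)
  refine IsUltrametricDist.norm_sum_le_of_forall_le_of_nonneg hε.le fun j _ => ?_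
  rw [norm_mul]
  calc ‖b j‖ * ‖(C₁ j).chi H k - ∑ i, b' j i * (C₂ j i).chi H k‖
      ≤ ‖b j‖ * (ε / (1 + ‖b j‖)) := mul_le_mul_of_nonneg_left (h4 j k) (norm_nonneg _)
    _ ≤ ε := by
      rw [← mul_div_assoc, div_le_iff₀ (by positivity)]
      nlinarith [norm_nonneg (b j)]

section

variable {J : Type} [Fintype J] {a : J → ℂ} {T : J → Module.End (Zl ℓ) (L.X →₀ Zl ℓ)}

/-- The alternating sum of the traces of the linear combination `∑ a j • T j`. -/
noncomputable def trF (S : Finset (HeightOneSpectrum (𝓞 F))) {J : Type} [Fintype J] (a : J → ℂ)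
    (T : J → Module.End (Zl ℓ) (L.X →₀ Zl ℓ)) (C : Coeff L) (y : Idx L S → ℂ) : ℂ :=
  ∑ j, a j * trC S (T j) C y

theorem exists_of_trF {C : Coeff L} {y : Idx L S → ℂ} (h : trF S a T C y ≠ 0) :
    ∃ j, trC S (T j) C y ≠ 0 := by
  by_contra hcon
  push Not at hcon
  apply h
  exact Finset.sum_eq_zero fun j _ => by rw [hcon j, mul_zero]

/-- The function `t ↦ ι (∑ a j * tau C t)` as a combination of homomorphisms. -/
theorem exists_homsF (h : ∀ j, SetupH L S (T j)) (ι : ℂ ≃+* PadicAlgCl ℓ) (C : Coeff L) :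
    ∃ (s : Finset (MvPolynomial (Idx L S) (Zl ℓ) →+* PadicAlgCl ℓ))
      (e : (MvPolynomial (Idx L S) (Zl ℓ) →+* PadicAlgCl ℓ) → PadicAlgCl ℓ),
      (∀ χ, χ ∈ s ↔ ∃ y, trF S a T C y ≠ 0 ∧ χ = homOf ι y) ∧ (∀ χ ∈ s, e χ ≠ 0) ∧
      ∀ t, ι (∑ j, a j * (h j).tau C t) = ∑ χ ∈ s, e χ * χ t := by
  classical
  have hinj := homOf_injective (L := L) (S := S) ι
  have hleft : ∀ y, Function.invFun (homOf (L := L) (S := S) ι) (homOf ι y) = y :=
    Function.leftInverse_invFun hinj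
  set U : Finset (Idx L S → ℂ) := Finset.univ.biUnion fun j => (h j).sys C with hU
  have hmem : ∀ y, trF S a T C y ≠ 0 → y ∈ U := by
    intro y hy
    obtain ⟨j, hj⟩ := exists_of_trF hy
    exact Finset.mem_biUnion.2 ⟨j, Finset.mem_univ j, (h j).mem_sys.2 hj⟩
  refine ⟨(U.filter fun y => trF S a T C y ≠ 0).image (homOf ι),
    fun χ => ι (trF S a T C (Function.invFun (homOf ι) χ)), ?_, ?_, ?_⟩
  · intro χ
    rw [Finset.mem_image]
    constructor
    · rintro ⟨y, hy, rfl⟩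
      exact ⟨y, (Finset.mem_filter.1 hy).2, rfl⟩
    · rintro ⟨y, hy, rfl⟩
      exact ⟨y, Finset.mem_filter.2 ⟨hmem y hy, hy⟩, rfl⟩
  · intro χ hχ
    obtain ⟨y, hy, rfl⟩ := Finset.mem_image.1 hχ
    beta_reduce
    rw [hleft, map_ne_zero_iff ι ι.injective]
    exact (Finset.mem_filter.1 hy).2
  · intro t
    have h1 : ∀ j, (h j).tau C t = ∑ y ∈ U, trC S (T j) C y * MvPolynomial.aeval y t := by
      intro j
      rw [SetupH.tau]
      refine Finset.sum_subset (Finset.subset_biUnion_of_mem (fun j => (h j).sys C)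
        (Finset.mem_univ j)) fun y _ hy => ?_
      have h2 : trC S (T j) C y = 0 := by
        by_contra h3
        exact hy ((h j).mem_sys.2 h3)
      rw [h2, zero_mul]
    have h2 : ∑ j, a j * (h j).tau C t = ∑ y ∈ U, trF S a T C y * MvPolynomial.aeval y t := by
      simp only [h1, Finset.mul_sum]
      rw [Finset.sum_comm]
      refine Finset.sum_congr rfl fun y _ => ?_
      rw [trF, Finset.sum_mul]
      exact Finset.sum_congr rfl fun j _ => by ring
    have h3 : ∑ y ∈ U, trF S a T C y * MvPolynomial.aeval y t =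
        ∑ y ∈ U.filter fun y => trF S a T C y ≠ 0, trF S a T C y * MvPolynomial.aeval y t := by
      symm
      refine Finset.sum_subset (Finset.filter_subset _ _) fun y hy hy' => ?_
      have h4 : trF S a T C y = 0 := by
        by_contra h5
        exact hy' (Finset.mem_filter.2 ⟨hy, h5⟩)
      rw [h4, zero_mul]
    rw [h2, h3, map_sum, Finset.sum_image (fun a _ b _ hab => hinj hab)]
    refine Finset.sum_congr rfl fun y _ => ?_
    beta_reduce
    rw [hleft, map_mul, homOf_apply]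

/-- The eigensystems with non-zero trace for the coefficients in `𝓒`. -/
def famF (ι : ℂ ≃+* PadicAlgCl ℓ) (L : Level D ℓ) (S : Finset (HeightOneSpectrum (𝓞 F)))
    {J : Type} [Fintype J] (a : J → ℂ) (T : J → Module.End (Zl ℓ) (L.X →₀ Zl ℓ))
    (𝓒 : Coeff L → Prop) : Set (MvPolynomial (Idx L S) (Zl ℓ) →+* PadicAlgCl ℓ) :=
  {χ | ∃ (C : Coeff L) (y : Idx L S → ℂ), 𝓒 C ∧ trF S a T C y ≠ 0 ∧ χ = homOf ι y}

/-- Control by the family `𝓒` if the character of `C` is a limit of linear combinations of the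
characters of the members of `𝓒`. -/
theorem controlled_of (h : ∀ j, SetupH L S (T j)) (H : HatData F ℓ ι) (𝓒 : Coeff L → Prop)
    {C : Coeff L} (hC : Approx H 𝓒 C)
    {y : Idx L S → ℂ} (hy : trF S a T C y ≠ 0) :
    Controlled (famF ι L S a T 𝓒) (homOf ι y) := by
  classical
  obtain ⟨s, e, h1, h2, h4⟩ := exists_homsF (a := a) h ι C
  refine controlled_of_approx (famF ι L S a T 𝓒) ?_ s e h2 ?_ (homOf ι y) ((h1 _).2 ⟨y, hy, rfl⟩)
  · rintro ψ ⟨C₁, y₁, -, hy₁, rfl⟩ t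
    obtain ⟨j, hj⟩ := exists_of_trF hy₁
    exact (h j).norm_le_one H hj t
  · intro ε hε
    choose c hc hc' using fun j => (h j).approx_tau H
    -- the precision
    obtain ⟨δ, hδ0, hδ⟩ : ∃ δ : ℝ, 0 < δ ∧ ∀ j, ‖ι (a j)‖ * δ ≤ c j * ε := by
      have hj : ∀ j, ∃ δ : ℝ, 0 < δ ∧ ‖ι (a j)‖ * δ ≤ c j * ε := by
        intro j
        refine ⟨c j * ε / (1 + ‖ι (a j)‖), div_pos (mul_pos (hc j) hε) (by positivity), ?_⟩
        have h5 := mul_pos (hc j) hε
        rw [← mul_div_assoc, div_le_iff₀ (by positivity)]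
        nlinarith [norm_nonneg (ι (a j))]
      choose d hd hd' using hj
      rcases isEmpty_or_nonempty J with hJ | hJ
      · exact ⟨1, one_pos, fun j => isEmptyElim j⟩
      · obtain ⟨j₀, -, hj₀⟩ := Finset.exists_min_image Finset.univ d Finset.univ_nonempty
        refine ⟨d j₀, hd j₀, fun j => ?_⟩
        exact (mul_le_mul_of_nonneg_left (hj₀ j (Finset.mem_univ j)) (norm_nonneg _)).trans (hd' j)
    obtain ⟨J', _, C', b, hrho, happ'⟩ := hC _ hδ0
    have happ : ∀ t, ‖ι (∑ j, a j * (h j).tau C t -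
        ∑ i, ι.symm (b i) * ∑ j, a j * (h j).tau (C' i) t)‖ ≤ ε := by
      intro t
      have h5 : ∑ j, a j * (h j).tau C t - ∑ i, ι.symm (b i) * ∑ j, a j * (h j).tau (C' i) t =
          ∑ j, a j * ((h j).tau C t - ∑ i, ι.symm (b i) * (h j).tau (C' i) t) := by
        simp only [mul_sub, Finset.mul_sum, Finset.sum_sub_distrib]
        congr 1
        rw [Finset.sum_comm]
        exact Finset.sum_congr rfl fun j _ => Finset.sum_congr rfl fun i _ => by ring
      rw [h5, map_sum]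
      refine IsUltrametricDist.norm_sum_le_of_forall_le_of_nonneg hε.le fun j _ => ?_
      rw [map_mul, norm_mul]
      have h6 := hc' j J' C C' b δ hδ0.le happ' t
      rw [← mul_le_mul_iff_right₀ (hc j)]
      calc c j * (‖ι (a j)‖ * ‖ι ((h j).tau C t - ∑ i, ι.symm (b i) * (h j).tau (C' i) t)‖)
          = ‖ι (a j)‖ * (c j * ‖ι ((h j).tau C t - ∑ i, ι.symm (b i) * (h j).tau (C' i) t)‖) := by
            ring
        _ ≤ ‖ι (a j)‖ * δ := mul_le_mul_of_nonneg_left h6 (norm_nonneg _)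
        _ ≤ c j * ε := hδ j
    have hex := fun i => exists_homsF (a := a) h ι (C' i)
    choose s' e' g1 g2 g4 using hex
    refine ⟨Finset.univ.biUnion s', fun χ => ∑ i, if χ ∈ s' i then b i * e' i χ else 0,
      ?_, ?_⟩
    · intro ψ hψ
      obtain ⟨i, -, hi⟩ := Finset.mem_biUnion.1 hψ
      obtain ⟨y₁, hy₁, rfl⟩ := (g1 i ψ).1 hi
      exact ⟨C' i, y₁, hrho i, hy₁, rfl⟩
    · intro t
      have h5 : ∑ ψ ∈ Finset.univ.biUnion s',
          (∑ i, if ψ ∈ s' i then b i * e' i ψ else 0) * ψ t =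
          ∑ i, b i * ι (∑ j, a j * (h j).tau (C' i) t) := by
        simp only [Finset.sum_mul, ite_mul, zero_mul]
        rw [Finset.sum_comm]
        refine Finset.sum_congr rfl fun i _ => ?_
        rw [Finset.sum_ite_mem, Finset.inter_eq_right.2
          (Finset.subset_biUnion_of_mem s' (Finset.mem_univ i)), g4 i t, Finset.mul_sum]
        refine Finset.sum_congr rfl fun ψ _ => ?_
        ring
      rw [h5, ← h4 t]
      have h6 := happ t
      have h7 : ι (∑ i, ι.symm (b i) * ∑ j, a j * (h j).tau (C' i) t) =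
          ∑ i, b i * ι (∑ j, a j * (h j).tau (C' i) t) := by
        rw [map_sum]
        refine Finset.sum_congr rfl fun i _ => ?_
        rw [map_mul, RingEquiv.apply_symm_apply]
      rw [map_sub, h7] at h6
      exact h6

end

end Pool.Agent.Lib.MP_666dc0_nt.EH
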