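import Pool.Agent.Lib.MP_666dc0_nt.EH.Defs

/-!
# EH, Z: Hecke functions at the bad places with integral values
-/

open NumberField IsDedekindDomain
open scoped NumberField

namespace Pool.Agent.Lib.MP_666dc0_nt.EH

open WL EC

variable {F : Type} [Field F] [NumberField F] {n : ℕ} {D : Datum F n}

/-- A Hecke function at the places in `S` that do not divide `ℓ`, with integral values. -/
def BadZ (ℓ : ℕ) (S : Finset (HeightOneSpectrum (𝓞 F))) (U : Subgroup D.Ad) : Type :=
  {h : (D.Ad ⧸ U) →₀ ℤ // (∀ u ∈ U, ∀ c, h (u • c) = h c) ∧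
    ∀ c, h c ≠ 0 → ∃ b : D.Ad, QuotientGroup.mk b = c ∧
      ∀ v : HeightOneSpectrum (𝓞 F), v ∉ S ∨ (ℓ : 𝓞 F) ∈ v.asIdeal → TrivialAt v b}

variable {ℓ : ℕ} {S : Finset (HeightOneSpectrum (𝓞 F))} {U : Subgroup D.Ad}

/-- The function `σ ∘ h`, for an automorphism `σ` of `ℂ`. -/
noncomputable def BadHecke.conj (h : BadHecke ℓ S U) (σ : ℂ ≃+* ℂ) : BadHecke ℓ S U :=
  ⟨h.fn.mapRange σ (map_zero σ), fun u hu c => by
      rw [Finsupp.mapRange_apply, Finsupp.mapRange_apply, h.inv u hu c],
    fun c hc => h.supp c fun h0 => hc (by rw [Finsupp.mapRange_apply, h0, map_zero])⟩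

theorem IsStable.conj_mem {𝓗 : Set (BadHecke ℓ S U)} (h𝓗 : IsStable 𝓗) (h : BadHecke ℓ S U)
    (hh : h ∈ 𝓗) (σ : ℂ ≃+* ℂ) : h.conj σ ∈ 𝓗 := by
  refine h𝓗 h hh σ _ fun c => ?_
  change h.fn.mapRange σ (map_zero σ) c = _
  rw [Finsupp.mapRange_apply]

/-- The Hecke operator of `h`. -/
noncomputable def BadZ.act (h : BadZ ℓ S U) {M : Type} [AddCommGroup M] [Module ℂ M]
    (f : D.Ad → M) : D.Ad → M :=
  fun g => h.1.sum fun c a => (a : ℂ) • f (g * Quotient.out c)

/-- `h` is the linear combination `∑ a j • T j`. -/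
def IsComb {J : Type} [Fintype J] (h : BadHecke ℓ S U) (a : J → ℂ) (T : J → BadZ ℓ S U) : Prop :=
  ∀ c, h.fn c = ∑ j, a j * ((T j).1 c : ℂ)

theorem IsComb.conj {J : Type} [Fintype J] {h : BadHecke ℓ S U} {a : J → ℂ} {T : J → BadZ ℓ S U}
    (hT : IsComb h a T) (σ : ℂ ≃+* ℂ) : IsComb (h.conj σ) (fun j => σ (a j)) T := by
  intro c
  change h.fn.mapRange σ (map_zero σ) c = _
  rw [Finsupp.mapRange_apply, hT c, map_sum]
  exact Finset.sum_congr rfl fun j _ => by rw [map_mul, map_intCast]

/-- Every Hecke function is a linear combination of Hecke functions with integral values. -/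
theorem exists_isComb (h : BadHecke ℓ S U) : ∃ (J : Type) (_ : Fintype J) (a : J → ℂ)
    (T : J → BadZ ℓ S U), IsComb h a T := by
  classical
  let V : Finset ℂ := h.fn.support.image h.fn
  let T : V → BadZ ℓ S U := fun z =>
    ⟨Finsupp.onFinset h.fn.support (fun c => if h.fn c = z then 1 else 0) (by
      intro c hc
      rw [Finsupp.mem_support_iff]
      intro h0
      obtain ⟨c', hc', hz⟩ := Finset.mem_image.1 z.2
      have h1 : h.fn c = z := by
        by_contra h2
        exact hc (if_neg h2)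
      rw [h0, ← hz] at h1
      exact (Finsupp.mem_support_iff.1 hc') h1.symm), by
      refine ⟨fun u hu c => ?_, fun c hc => ?_⟩
      · rw [Finsupp.onFinset_apply, Finsupp.onFinset_apply, h.inv u hu c]
      · rw [Finsupp.onFinset_apply] at hc
        have h1 : h.fn c = z := by
          by_contra h2
          exact hc (if_neg h2)
        refine h.supp c ?_
        obtain ⟨c', hc', hz⟩ := Finset.mem_image.1 z.2
        rw [h1, ← hz]
        exact Finsupp.mem_support_iff.1 hc'⟩
  refine ⟨V, inferInstance, fun z => z, T, fun c => ?_⟩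
  have h1 : ∀ z : V, ((z : ℂ) * (((T z).1 c : ℤ) : ℂ)) = if h.fn c = z then (z : ℂ) else 0 := by
    intro z
    change (z : ℂ) * (((if h.fn c = z then 1 else 0 : ℤ)) : ℂ) = _
    split_ifs <;> simp
  simp only [h1]
  by_cases hc : h.fn c = 0
  · rw [hc]
    symm
    refine Finset.sum_eq_zero fun z _ => ?_
    split_ifs with h2
    · exact h2.symm
    · rfl
  · have hz : h.fn c ∈ V := Finset.mem_image_of_mem _ (Finsupp.mem_support_iff.2 hc)
    rw [Finset.sum_eq_single (⟨h.fn c, hz⟩ : V)]
    · rw [if_pos rfl]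
    · intro z _ hne
      rw [if_neg]
      intro h2
      exact hne (Subtype.ext h2.symm)
    · intro h2
      exact absurd (Finset.mem_univ _) h2

/-- The operator of a linear combination. -/
theorem act_eq {J : Type} [Fintype J] {h : BadHecke ℓ S U} {a : J → ℂ} {T : J → BadZ ℓ S U}
    (hT : IsComb h a T) {M : Type} [AddCommGroup M] [Module ℂ M] (f : D.Ad → M) (g : D.Ad) :
    h.act f g = ∑ j, a j • (T j).act f g := by
  classical
  unfold BadHecke.act BadZ.act Finsupp.sum
  set W : Finset (D.Ad ⧸ U) := h.fn.support ∪ Finset.univ.biUnion fun j => (T j).1.support with hW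
  have h1 : ∑ c ∈ h.fn.support, h.fn c • f (g * Quotient.out c) =
      ∑ c ∈ W, h.fn c • f (g * Quotient.out c) := by
    refine Finset.sum_subset Finset.subset_union_left fun c _ hc => ?_
    rw [Finsupp.notMem_support_iff.1 hc, zero_smul]
  have h2 : ∀ j, ∑ c ∈ (T j).1.support, (((T j).1 c : ℤ) : ℂ) • f (g * Quotient.out c) =
      ∑ c ∈ W, (((T j).1 c : ℤ) : ℂ) • f (g * Quotient.out c) := by
    intro j
    refine Finset.sum_subset ((Finset.subset_biUnion_of_mem (fun j => (T j).1.support)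
      (Finset.mem_univ j)).trans Finset.subset_union_right) fun c _ hc => ?_
    rw [Finsupp.notMem_support_iff.1 hc, Int.cast_zero, zero_smul]
  rw [h1]
  simp only [h2, Finset.smul_sum]
  rw [Finset.sum_comm]
  refine Finset.sum_congr rfl fun c _ => ?_
  rw [hT c, Finset.sum_smul]
  exact Finset.sum_congr rfl fun j _ => by rw [smul_smul]

end Pool.Agent.Lib.MP_666dc0_nt.EH
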