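import Pool.Agent.Lib.MP_666dc0_nt.EP.T2b
import Pool.Agent.Lib.MP_666dc0_nt.EC.B2
import Pool.Agent.Lib.MP_666dc0_nt.EH.A2
import Pool.Agent.Lib.MP_666dc0_nt.EH.Z

/-!
# EH, B1: the Hecke operators at the bad places
-/

open NumberField IsDedekindDomain
open scoped NumberField

namespace Pool.Agent.Lib.MP_666dc0_nt.EH

open WL EP EC

variable {F : Type} [Field F] [NumberField F] {n : ℕ} {D : Datum F n} {ℓ : ℕ} [Fact ℓ.Prime]
  {S : Finset (HeightOneSpectrum (𝓞 F))} (L : Level D ℓ)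

/-- The operator of `h` on `ℤ_(ℓ)[G(𝔸_f) / U]`. -/
noncomputable def opB (h : BadZ ℓ S L.U) : Module.End (Zl ℓ) (L.X →₀ Zl ℓ) :=
  Finsupp.linearCombination (Zl ℓ) fun x : L.X => h.1.sum fun c a =>
    Finsupp.single (L.cls ((Quotient.out x : D.Ad) * (Quotient.out c : D.Ad))) (a : Zl ℓ)

theorem cls_mul_of_mk_eq (g : D.Ad) {x y : D.Ad}
    (h : (QuotientGroup.mk x : D.Ad ⧸ L.U) = QuotientGroup.mk y) :
    L.cls (g * x) = L.cls (g * y) := by
  rw [L.cls_eq_iff]
  have h1 : x⁻¹ * y ∈ L.U := QuotientGroup.eq.1 h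
  have h3 : (g * x)⁻¹ * (g * y) = x⁻¹ * y := by group
  rw [h3]
  exact h1

theorem opB_single (h : BadZ ℓ S L.U) (g : D.Ad) :
    opB L h (Finsupp.single (L.cls g) 1) = h.1.sum fun c a =>
      Finsupp.single (L.cls (g * (Quotient.out c : D.Ad))) (a : Zl ℓ) := by
  obtain ⟨g₀, hg₀⟩ : ∃ g₀ : D.Ad, g₀ = (Quotient.out (L.cls g) : D.Ad) := ⟨_, rfl⟩
  have hcls : L.cls g₀ = L.cls g := by rw [hg₀, L.cls_out]
  have hu : g₀⁻¹ * g ∈ L.U := L.cls_eq_iff.1 hcls
  have hkey : ∀ c : D.Ad ⧸ L.U, L.cls (g * (Quotient.out c : D.Ad)) =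
      L.cls (g₀ * (Quotient.out ((g₀⁻¹ * g) • c) : D.Ad)) := by
    intro c
    have h1 : (QuotientGroup.mk ((g₀⁻¹ * g) * (Quotient.out c : D.Ad)) : D.Ad ⧸ L.U) =
        QuotientGroup.mk (Quotient.out ((g₀⁻¹ * g) • c) : D.Ad) := by
      have h2 : (QuotientGroup.mk (Quotient.out ((g₀⁻¹ * g) • c) : D.Ad) : D.Ad ⧸ L.U) =
          (g₀⁻¹ * g) • c := QuotientGroup.out_eq' _
      have h3 : (QuotientGroup.mk (Quotient.out c : D.Ad) : D.Ad ⧸ L.U) = c :=
        QuotientGroup.out_eq' _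
      rw [h2]
      conv_rhs => rw [← h3]
      rfl
    rw [← cls_mul_of_mk_eq L g₀ h1]
    congr 1
    group
  rw [opB, Finsupp.linearCombination_single, one_smul, ← hg₀, Finsupp.sum, Finsupp.sum]
  symm
  refine Finset.sum_equiv (MulAction.toPerm (g₀⁻¹ * g)) ?_ ?_
  · intro c
    rw [MulAction.toPerm_apply, Finsupp.mem_support_iff, Finsupp.mem_support_iff, h.2.1 _ hu c]
  · intro c _
    rw [MulAction.toPerm_apply, h.2.1 _ hu c, hkey c]

/-- The representatives are trivial above `ℓ`. -/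
theorem trivialAt_out (h : BadZ ℓ S L.U) {c : D.Ad ⧸ L.U} (hc : h.1 c ≠ 0)
    (v : HeightOneSpectrum (𝓞 F)) (hv : (ℓ : 𝓞 F) ∈ v.asIdeal) :
    TrivialAt v (Quotient.out c : D.Ad) := by
  obtain ⟨b, hb, hb'⟩ := h.2.2 c hc
  have h1 : (QuotientGroup.mk b : D.Ad ⧸ L.U) = QuotientGroup.mk (Quotient.out c : D.Ad) := by
    rw [hb]
    exact (QuotientGroup.out_eq' _).symm
  have h2 : b⁻¹ * (Quotient.out c : D.Ad) ∈ L.U := QuotientGroup.eq.1 h1
  have h3 := L.tame _ h2 v hv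
  have h4 := hb' v (Or.inr hv)
  have h5 : (Quotient.out c : D.Ad) = b * (b⁻¹ * (Quotient.out c : D.Ad)) := by group
  rw [trivialAt_iff] at h3 h4 ⊢
  rw [h5, Subgroup.coe_mul, map_mul, h4, h3, one_mul]

theorem equi_opB (h : BadZ ℓ S L.U) : Equi (D.Rat × L.K) (opB L h) := by
  refine Equi.of_single fun a y => ?_
  obtain ⟨g, rfl⟩ := L.exists_cls y
  rw [L.smul_cls, opB_single, opB_single]
  unfold Finsupp.sum
  rw [Finsupp.mapDomain_finsetSum]
  refine Finset.sum_congr rfl fun c hc => ?_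
  beta_reduce
  rw [Finsupp.mapDomain_single, L.smul_cls]
  have hcomm : (a.2 : D.Ad)⁻¹ * (Quotient.out c : D.Ad) =
      (Quotient.out c : D.Ad) * (a.2 : D.Ad)⁻¹ := by
    refine mul_comm_of_disjoint fun w => ?_
    by_cases hw : (ℓ : 𝓞 F) ∈ w.asIdeal
    · exact Or.inr (trivialAt_out L h (Finsupp.mem_support_iff.1 hc) w hw)
    · exact Or.inl (L.level.supp _ (L.K.inv_mem a.2.2) w hw)
  have h1 : D.toAd a.1 * g * (a.2 : D.Ad)⁻¹ * (Quotient.out c : D.Ad) =
      D.toAd a.1 * (g * (Quotient.out c : D.Ad)) * (a.2 : D.Ad)⁻¹ := by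
    rw [mul_assoc (D.toAd a.1 * g), hcomm]
    simp only [mul_assoc]
  rw [h1]

theorem comm_opB (h : BadZ ℓ S L.U) {v : HeightOneSpectrum (𝓞 F)} (hvS : v ∉ S)
    (hv : L.IsGoodAt v) (h' : L.Hecke v) :
    opB L h ∘ₗ L.op h' = L.op h' ∘ₗ opB L h := by
  classical
  apply Finsupp.lhom_ext'
  intro x
  apply LinearMap.ext_ring
  obtain ⟨g, rfl⟩ : ∃ g, L.cls g = x := QuotientGroup.mk_surjective x
  change opB L h (L.op h' (Finsupp.single (L.cls g) 1)) =
    L.op h' (opB L h (Finsupp.single (L.cls g) 1))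
  have hsm : ∀ (x : L.X) (a : Zl ℓ), (Finsupp.single x a : L.X →₀ Zl ℓ) =
      a • Finsupp.single x 1 := by
    intro x a
    rw [Finsupp.smul_single, smul_eq_mul, mul_one]
  rw [L.op_single hv, opB_single]
  unfold Finsupp.sum
  rw [map_sum, map_sum]
  have h1 : ∀ c' ∈ h'.1.support, opB L h (Finsupp.single
      (L.cls (g * ((Quotient.out c' : locSub D v) : D.Ad))) (h'.1 c')) =
      ∑ c ∈ h.1.support, Finsupp.single (L.cls (g * ((Quotient.out c' : locSub D v) : D.Ad) *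
        (Quotient.out c : D.Ad))) (h'.1 c' * (h.1 c : Zl ℓ)) := by
    intro c' _
    rw [hsm, map_smul, opB_single]
    unfold Finsupp.sum
    rw [Finset.smul_sum]
    refine Finset.sum_congr rfl fun c _ => ?_
    rw [Finsupp.smul_single, smul_eq_mul]
  have h2 : ∀ c ∈ h.1.support, L.op h' (Finsupp.single
      (L.cls (g * (Quotient.out c : D.Ad))) (h.1 c : Zl ℓ)) =
      ∑ c' ∈ h'.1.support, Finsupp.single (L.cls (g * ((Quotient.out c' : locSub D v) : D.Ad) *
        (Quotient.out c : D.Ad))) (h'.1 c' * (h.1 c : Zl ℓ)) := by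
    intro c hc
    obtain ⟨b, hb, hb'⟩ := h.2.2 c (Finsupp.mem_support_iff.1 hc)
    have h3 : (QuotientGroup.mk (Quotient.out c : D.Ad) : D.Ad ⧸ L.U) = QuotientGroup.mk b := by
      rw [hb]
      exact QuotientGroup.out_eq' _
    rw [cls_mul_of_mk_eq L g h3, hsm, map_smul, L.op_single hv]
    unfold Finsupp.sum
    rw [Finset.smul_sum]
    refine Finset.sum_congr rfl fun c' _ => ?_
    rw [Finsupp.smul_single, smul_eq_mul, mul_comm]
    have h4 : b * ((Quotient.out c' : locSub D v) : D.Ad) =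
        ((Quotient.out c' : locSub D v) : D.Ad) * b := by
      refine mul_comm_of_disjoint fun w => ?_
      by_cases hw : w = v
      · exact Or.inl (hb' w (Or.inl (hw ▸ hvS)))
      · exact Or.inr ((Quotient.out c' : locSub D v).2 w hw)
    rw [cls_mul_of_mk_eq L (g * ((Quotient.out c' : locSub D v) : D.Ad)) h3, mul_assoc, h4,
      mul_assoc]
  rw [Finset.sum_congr rfl h1, Finset.sum_congr rfl h2, Finset.sum_comm]

theorem isBad_opB (h : BadZ ℓ S L.U) (hgood : ∀ v, v ∉ S → L.IsGoodAt v) :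
    IsBad L S (opB L h) where
  equi := equi_opB L h
  comm i := comm_opB L h i.1.2 (hgood _ i.1.2) i.2
  supp g x hx := by
    classical
    rw [opB_single] at hx
    obtain ⟨c, hc, hxc⟩ : ∃ c, h.1 c ≠ 0 ∧ x = L.cls (g * (Quotient.out c : D.Ad)) := by
      by_contra hcon
      push Not at hcon
      rw [Finsupp.mem_support_iff] at hx
      refine hx ?_
      unfold Finsupp.sum
      rw [Finsupp.finset_sum_apply]
      refine Finset.sum_eq_zero fun c hc => ?_
      exact Finsupp.single_eq_of_ne (hcon c (Finsupp.mem_support_iff.1 hc))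
    exact ⟨_, hxc, fun v hv => trivialAt_out L h hc v hv⟩

/-- The transpose of the operator, in terms of functions on `G(𝔸_f)`. -/
theorem pull_opB (h : BadZ ℓ S L.U) {M : Type} [AddCommGroup M] [Module ℂ M] (f : L.X → M)
    (g : D.Ad) : pull ℂ M (opB L h) f (L.cls g) = h.act (fun g => f (L.cls g)) g := by
  change ((opB L h (Finsupp.single (L.cls g) 1)).sum fun z r => algebraMap (Zl ℓ) ℂ r • f z) = _
  rw [opB_single]
  rw [Finsupp.sum_sum_index (fun z => by rw [map_zero, zero_smul])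
    (fun z r s => by rw [map_add, add_smul])]
  unfold BadZ.act
  refine Finsupp.sum_congr fun c _ => ?_
  rw [Finsupp.sum_single_index (by rw [map_zero, zero_smul]), map_intCast]

end Pool.Agent.Lib.MP_666dc0_nt.EH
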