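import Pool.Agent.Lib.MP_666dc0_nt.Mg.G097
import Pool.Agent.Lib.MP_666dc0_nt.EH.A3
import Pool.Agent.Lib.MP_666dc0_nt.EH.B1

/-!
# EH, B2: the traces
-/

open NumberField IsDedekindDomain
open scoped NumberField

namespace Pool.Agent.Lib.MP_666dc0_nt.EH

open WL EP EC

variable {F : Type} [Field F] [NumberField F] {n : ℕ} {D : Datum F n} {ℓ : ℕ} [Fact ℓ.Prime]
  {S : Finset (HeightOneSpectrum (𝓞 F))} {L : Level D ℓ} {V : Weight D} {s : SmRep L.K} {m : ℕ}

theorem pull_ext' (τ : Module.End (Zl ℓ) (L.X →₀ Zl ℓ))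
    (f : Simp L.E L.X m → (pairC L V s).W) (e : Fin (m + 1) → L.E) (x : L.X) :
    pull ℂ (pairC L V s).W (ext (E := L.E) m τ) f (e, x) =
      pull ℂ (pairC L V s).W τ (fun x => f (e, x)) x := by
  change ((ext m τ (Finsupp.single (e, x) 1)).sum fun z r =>
    algebraMap (Zl ℓ) ℂ r • f z) = (τ (Finsupp.single x 1)).sum fun z r =>
    algebraMap (Zl ℓ) ℂ r • f (e, z)
  rw [ext_single, Finsupp.sum_mapDomain_index (fun z => by rw [map_zero, zero_smul])
    (fun z r r' => by rw [map_add, add_smul])]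

section

variable {J : Type} [Fintype J] {h : BadHecke ℓ S L.U} {a : J → ℂ} {T : J → BadZ ℓ S L.U}

/-- The operator `∑ a j • T j` on cochains. -/
noncomputable def opP (L : Level D ℓ) (V : Weight D) (s : SmRep L.K) (a : J → ℂ)
    (T : J → BadZ ℓ S L.U) (m : ℕ) : Module.End ℂ (Simp L.E L.X m → (pairC L V s).W) :=
  ∑ j, a j • pull ℂ (pairC L V s).W (ext (E := L.E) m (opB L (T j)))

theorem opP_mem_cobd {f : Simp L.E L.X m → (pairC L V s).W}
    (hf : f ∈ cobd (Zl ℓ) (pairC L V s).rep L.E L.X m) :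
    opP L V s a T m f ∈ cobd (Zl ℓ) (pairC L V s).rep L.E L.X m := by
  unfold opP
  rw [LinearMap.sum_apply]
  exact Submodule.sum_mem _ fun j _ => Submodule.smul_mem _ _
    (pull_mem_cobd _ (equi_opB L (T j)) hf)

theorem opSubH_unf (hT : IsComb h a T) (b : ℂ) (f : Simp L.E L.X m → (pairC L V s).W) :
    opSubH h b (unf L V s m f) = unf L V s m
      ((opP L V s a T m - b • LinearMap.id : Module.End ℂ _) f) := by
  funext e g
  change h.act (fun g => f (e, L.cls g)) g - b • f (e, L.cls g) =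
    (opP L V s a T m f - b • f) (e, L.cls g)
  rw [act_eq hT, Pi.sub_apply, Pi.smul_apply]
  congr 1
  unfold opP
  rw [LinearMap.sum_apply, Finset.sum_apply]
  refine Finset.sum_congr rfl fun j _ => ?_
  rw [LinearMap.smul_apply, Pi.smul_apply, pull_ext', pull_opB]

theorem iterH_unf (hT : IsComb h a T) (b : ℂ) (k : ℕ)
    (f : Simp L.E L.X m → (pairC L V s).W) :
    (opSubH h b)^[k] (unf L V s m f) = unf L V s m
      (((opP L V s a T m - b • LinearMap.id : Module.End ℂ _) ^ k) f) := by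
  induction k with
  | zero => rfl
  | succ k ih =>
    rw [Function.iterate_succ_apply', ih, opSubH_unf hT, pow_succ', Module.End.mul_apply]

/-- The cocycles whose classes are generalised eigenvectors. -/
noncomputable def genP (L : Level D ℓ) (V : Weight D) (s : SmRep L.K) (y : Idx L S → ℂ)
    (a : J → ℂ) (T : J → BadZ ℓ S L.U) (m : ℕ) (b : ℂ) :
    Submodule ℂ (Simp L.E L.X m → (pairC L V s).W) :=
  genCocyc (pairC L V s).rep L.E (fun i : Idx L S => L.op i.2) y m ⊓
    ⨆ N : ℕ, (cobd (Zl ℓ) (pairC L V s).rep L.E L.X m).comap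
      ((opP L V s a T m - b • LinearMap.id) ^ N)

theorem isGenH_unf (hSl : ∀ v : HeightOneSpectrum (𝓞 F), (ℓ : 𝓞 F) ∈ v.asIdeal → v ∈ S)
    (hgood : ∀ v, v ∉ S → IsGoodAt L.U v) (lam : ∀ v, Hecke L.U v → ℂ) (hT : IsComb h a T)
    (b : ℂ) {f : Simp L.E L.X m → (pairC L V s).W} :
    IsGenH lam h b (unf L V s m f) ↔ f ∈ genP L V s (toD L S lam) a T m b := by
  unfold genP
  rw [Submodule.mem_inf, ← isGen_unf hSl hgood,
    mem_comap_iff (S := opP L V s a T m) (B := cobd (Zl ℓ) (pairC L V s).rep L.E L.X m)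
      (fun u hu => opP_mem_cobd hu)]
  unfold IsGenH
  refine and_congr Iff.rfl (exists_congr fun k => ?_)
  rw [iterH_unf hT, isCob_unf]

theorem multH_eq (hSl : ∀ v : HeightOneSpectrum (𝓞 F), (ℓ : 𝓞 F) ∈ v.asIdeal → v ∈ S)
    (hgood : ∀ v, v ∉ S → IsGoodAt L.U v) (lam : ∀ v, Hecke L.U v → ℂ) (hT : IsComb h a T)
    (b : ℂ) : multH V s m lam h b = Module.finrank ℂ (genP L V s (toD L S lam) a T m b ⧸
      (cobd (Zl ℓ) (pairC L V s).rep L.E L.X m).submoduleOf
        (genP L V s (toD L S lam) a T m b)) := by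
  let G := genP L V s (toD L S lam) a T m b
  let B := cobd (Zl ℓ) (pairC L V s).rep L.E L.X m
  let W : G →ₗ[ℂ] (Coch V s m ⧸ cobSpan V s m L.U) :=
    (cobSpan V s m L.U).mkQ ∘ₗ (unf L V s m ∘ₗ G.subtype)
  have h1 : Submodule.Quotient.mk (p := cobSpan V s m L.U) '' {z | IsGenH lam h b z} =
      (LinearMap.range W : Set (Coch V s m ⧸ cobSpan V s m L.U)) := by
    ext q
    constructor
    · rintro ⟨z, hz, rfl⟩
      obtain ⟨f, -, rfl⟩ := exists_unf (L := L) hz.1.1
      exact ⟨⟨f, (isGenH_unf hSl hgood lam hT b).1 hz⟩, rfl⟩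
    · rintro ⟨⟨f, hf⟩, rfl⟩
      exact ⟨unf L V s m f, (isGenH_unf hSl hgood lam hT b).2 hf, rfl⟩
  have h2 : LinearMap.ker W = B.submoduleOf G := by
    ext ⟨f, hf⟩
    rw [LinearMap.mem_ker]
    change Submodule.Quotient.mk (p := cobSpan V s m L.U) (unf L V s m f) = 0 ↔ f ∈ B
    rw [Submodule.Quotient.mk_eq_zero, cobSpan_eq, Submodule.mem_map]
    constructor
    · rintro ⟨f', hf', h⟩
      rw [← unf_injective h]
      exact hf'
    · intro h
      exact ⟨f, h, rfl⟩
  unfold multH Set.finrank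
  rw [h1, Submodule.span_eq]
  change Module.finrank ℂ (LinearMap.range W) = Module.finrank ℂ (G ⧸ B.submoduleOf G)
  rw [← h2]
  exact (LinearEquiv.finrank_eq W.quotKerEquivRange).symm

/-- The alternating sums of the traces. -/
theorem eulerTrace_eq (hSl : ∀ v : HeightOneSpectrum (𝓞 F), (ℓ : 𝓞 F) ∈ v.asIdeal → v ∈ S)
    (hgood : ∀ v, v ∉ S → IsGoodAt L.U v) (hfd : IsFD (Zl ℓ) (D.Rat × L.K) L.X)
    (lam : ∀ v, Hecke L.U v → ℂ) (hT : IsComb h a T) :
    eulerTrace V s lam h = trF S a (fun j => opB L (T j)) (pairC L V s) (toD L S lam) := by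
  have hgood' : ∀ v, v ∉ S → L.IsGoodAt v := fun v hv => isGoodAt L (hgood v hv)
  have hs : Setup L S := ⟨hSl, hgood', hfd⟩
  have h1 := finsum_comb (pairC L V s).rep L.free hfd (fun i : Idx L S => L.op i.2) hs.equi
    (L.commute_idx S hgood') a (fun j => opB L (T j)) (fun j => equi_opB L (T j))
    (fun j => (isBad_opB L (T j) hgood').comm) (toD L S lam)
    (fun m b => genP L V s (toD L S lam) a T m b) (fun m b => rfl)
  unfold trF trC
  rw [← h1]
  unfold eulerTrace trace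
  refine finsum_congr fun m => ?_
  congr 1
  refine finsum_congr fun b => ?_
  rw [multH_eq hSl hgood lam hT]

end

end Pool.Agent.Lib.MP_666dc0_nt.EH
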