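import Pool.Agent.Lib.MP_666dc0_nt.EC.B5
import Pool.Agent.Lib.MP_666dc0_nt.EC.B6
import Pool.Agent.Lib.MP_666dc0_nt.EP.U5
import Pool.Agent.Lib.MP_666dc0_nt.EH.A4
import Pool.Agent.Lib.MP_666dc0_nt.EH.B2

/-!
# EH, B3: the main theorem for a level of finite type
-/

open NumberField IsDedekindDomain TensorProduct
open scoped NumberField TensorProduct

namespace Pool.Agent.Lib.MP_666dc0_nt.EH

open WL EP EC

section

variable {F : Type} [Field F] [NumberField F] {n : ℕ} {D : Datum F n} {ℓ : ℕ} [Fact ℓ.Prime]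
  {L : Level D ℓ} {ι : ℂ ≃+* PadicAlgCl ℓ}

theorem triv_trace_ne_zero (x : D.Cpx) : ((Weight.triv D).rho x).trace ≠ 0 := by
  change (1 : Matrix Unit Unit ℂ).trace ≠ 0
  rw [Matrix.trace_one]
  simp

theorem pairC_triv_rho (s : SmRep L.K) : (pairC L (Weight.triv D) s).rho = 1 := by
  refine MonoidHom.ext fun x => LinearMap.ext fun M => ?_
  exact Matrix.one_mul (show Matrix Unit s.J ℂ from M)

theorem approx_of_noZero (C : Coeff L) (H : HatData F ℓ ι) (V : Weight D)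
    (hV : ∀ k : L.K, (V.rho (H.hat D k)).trace ≠ 0) :
    Approx H (fun C' => ∃ s, C' = pairC L V s) C := by
  intro ε hε
  obtain ⟨m, C', b, h1, h2⟩ := exists_approx_pair C H V hV hε
  exact ⟨Fin m, inferInstance, C', b, h1, h2⟩

theorem approx_weight_zero (C : Coeff L) (H : HatData F ℓ ι) :
    Approx H (fun C' => C'.rho = 1) C := by
  intro ε hε
  obtain ⟨m, C', b, h1, h2⟩ := exists_approx_pair C H (Weight.triv D)
    (fun k => triv_trace_ne_zero _) hε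
  refine ⟨Fin m, inferInstance, C', b, fun j => ?_, h2⟩
  obtain ⟨s, hs⟩ := h1 j
  rw [hs]
  exact pairC_triv_rho s

theorem trC_conj (C : Coeff L) (hC : C.rho = 1) (s : ℂ ≃+* ℂ) : ∃ C' : Coeff L, C'.rho = 1 ∧
      ∀ {S : Finset (HeightOneSpectrum (𝓞 F))} (τ : Module.End (Zl ℓ) (L.X →₀ Zl ℓ))
        (y : Idx L S → ℂ), trC S τ C' (fun i => s (y i)) = s (trC S τ C y) := by
  obtain ⟨C', h1, h2⟩ := exists_conj C hC s
  refine ⟨C', h1, fun {S} τ y => ?_⟩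
  exact trE_semilinear C.rep s (fun z => h2 _ z) y

end

section

variable {F : Type} [Field F] [NumberField F] {n : ℕ} {D : Datum F n} {ℓ : ℕ} [Fact ℓ.Prime]

/-- Data for a linear combination of Hecke operators with integral values. -/
structure Comb (L : Level D ℓ) (S : Finset (HeightOneSpectrum (𝓞 F))) where
  /-- the index set -/
  J : Type
  /-- it is finite -/
  fin : Fintype J
  /-- the coefficients -/
  a : J → ℂ
  /-- the operators -/
  T : J → BadZ ℓ S L.U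

attribute [instance] Comb.fin

variable {L : Level D ℓ} {S : Finset (HeightOneSpectrum (𝓞 F))} {ι : ℂ ≃+* PadicAlgCl ℓ}
  {B : Type} [CommRing B] [IsDomain B] [IsPrincipalIdealRing B] [Algebra B ℚ]
  [IsFractionRing B ℚ] [Algebra B (PadicAlgCl ℓ)] {O : Type} [CommRing O]
  [HopfAlgebra B O] [Algebra.FiniteType B O] [Module.Free B O]
  {A : OverB.HopfAction B Gal(AlgebraicClosure F/F) O}
  {φ : HeightOneSpectrum (𝓞 F) → Gal(AlgebraicClosure F/F)}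
  {sat : ∀ v, A.inv (φ v) → L.Hecke v}

/-- The alternating sum of the traces. -/
noncomputable def Comb.tr (c : Comb L S) (C : Coeff L) (y : Idx L S → ℂ) : ℂ :=
  trF S c.a (fun j => opB L (c.T j)) C y

/-- The image under an automorphism. -/
def Comb.conj (c : Comb L S) (σ : ℂ ≃+* ℂ) : Comb L S := ⟨c.J, c.fin, fun j => σ (c.a j), c.T⟩

/-- Transfer of Galois representations. -/
theorem att_of_approx (hs : Setup L S) (c : Comb L S) (hO : LinearlyReductive (ℚ ⊗[B] O))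
    (hA : IsOpen (A.act.ker : Set Gal(AlgebraicClosure F/F)))
    (hS : ∀ v, v ∉ S → ∀ P u, IsInertiaAt v P u → A.act u = 1)
    (hφ : ∀ v, v ∉ S → ∃ P : Ideal (𝓞 (AlgebraicClosure F)), IsOver v P ∧
      (IsFrob v P (φ v) ∨ IsFrob v P (φ v)⁻¹))
    (H : HatData F ℓ ι) (𝓒 : Coeff L → Prop) {C : Coeff L} (hC : Approx H 𝓒 C)
    {lam : Idx L S → ℂ} (hlam : c.tr C lam ≠ 0)
    (h : ∀ C' (lam' : Idx L S → ℂ), 𝓒 C' → c.tr C' lam' ≠ 0 → AttAt S A φ sat ι lam') :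
    AttAt S A φ sat ι lam := by
  have hsj : ∀ j, SetupH L S (opB L (c.T j)) := fun j => ⟨hs, isBad_opB L (c.T j) hs.good⟩
  have hfin : ∀ (C : Coeff L) (y : Idx L S → ℂ), c.tr C y ≠ 0 →
      ∃ E : IntermediateField ℚ_[ℓ] (PadicAlgCl ℓ),
        FiniteDimensional ℚ_[ℓ] E ∧ ∀ t, homOf ι y t ∈ E := by
    intro C y hy
    obtain ⟨j, hj⟩ := exists_of_trF hy
    exact (hsj j).exists_field H hj
  have hint : ∀ (C : Coeff L) (y : Idx L S → ℂ), c.tr C y ≠ 0 → ∀ t, ‖homOf ι y t‖ ≤ 1 := by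
    intro C y hy
    obtain ⟨j, hj⟩ := exists_of_trF hy
    exact (hsj j).norm_le_one H hj
  rw [attAt_iff]
  refine att_of_controlled hO A hA hS φ hφ sat (famF ι L S c.a (fun j => opB L (c.T j)) 𝓒)
    (homOf ι lam) (controlled_of hsj H 𝓒 hC hlam) ?_ ?_ ?_
  · rintro ψ hψ
    rcases Set.mem_insert_iff.1 hψ with rfl | ⟨C', y', _, hy', rfl⟩
    · exact hfin _ _ hlam
    · exact hfin _ _ hy'
  · rintro ψ hψ
    rcases Set.mem_insert_iff.1 hψ with rfl | ⟨C', y', _, hy', rfl⟩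
    · exact hint _ _ hlam
    · exact hint _ _ hy'
  · rintro ψ ⟨C', y', hC', hy', rfl⟩
    rw [← attAt_iff]
    exact h C' y' hC' hy'

/-- From one isomorphism and a dense family to all. -/
theorem q1_of_dense (hs : Setup L S) (hO : LinearlyReductive (ℚ ⊗[B] O))
    (hA : IsOpen (A.act.ker : Set Gal(AlgebraicClosure F/F)))
    (hS : ∀ v, v ∉ S → ∀ P u, IsInertiaAt v P u → A.act u = 1)
    (hφ : ∀ v, v ∉ S → ∃ P : Ideal (𝓞 (AlgebraicClosure F)), IsOver v P ∧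
      (IsFrob v P (φ v) ∨ IsFrob v P (φ v)⁻¹))
    (H : HatData F ℓ ι) (𝓒 : Coeff L → Prop) (hC : ∀ C, Approx H 𝓒 C)
    (𝓟 : Comb L S → Prop) (h𝓟 : ∀ c, 𝓟 c → ∀ σ : ℂ ≃+* ℂ, 𝓟 (c.conj σ))
    (h : ∀ c, 𝓟 c → ∀ C' (lam' : Idx L S → ℂ), 𝓒 C' → c.tr C' lam' ≠ 0 →
      AttAt S A φ sat ι lam')
    (c : Comb L S) (hc : 𝓟 c) (C : Coeff L) (lam : Idx L S → ℂ) (hlam : c.tr C lam ≠ 0) :
    EP.Q1 S A φ sat lam := by
  have hA1 : ∀ c, 𝓟 c → ∀ (C : Coeff L) (lam : Idx L S → ℂ), c.tr C lam ≠ 0 →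
      AttAt S A φ sat ι lam :=
    fun c hc C lam hlam => att_of_approx hs c hO hA hS hφ H 𝓒 (hC C) hlam (h c hc)
  -- weight zero, all isomorphisms
  have hA2 : ∀ (C : Coeff L) (lam : Idx L S → ℂ), C.rho = 1 → c.tr C lam ≠ 0 →
      ∀ ι' : ℂ ≃+* PadicAlgCl ℓ, AttAt S A φ sat ι' lam := by
    intro C lam hC hlam ι'
    obtain ⟨C', hC', hconj⟩ := trC_conj C hC (ι'.trans ι.symm)
    have htr : (c.conj (ι'.trans ι.symm)).tr C' (fun i => (ι'.trans ι.symm) (lam i)) =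
        (ι'.trans ι.symm) (c.tr C lam) := by
      unfold Comb.tr trF
      rw [map_sum]
      refine Finset.sum_congr rfl fun j _ => ?_
      rw [map_mul, ← hconj]
      rfl
    have hlam' : (c.conj (ι'.trans ι.symm)).tr C' (fun i => (ι'.trans ι.symm) (lam i)) ≠ 0 := by
      rw [htr]
      exact (map_ne_zero_iff _ (ι'.trans ι.symm).injective).2 hlam
    obtain ⟨w, r, hw, hr⟩ := hA1 _ (h𝓟 c hc _) C' _ hlam'
    refine ⟨w, r, fun v hv f => ?_, hr⟩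
    rw [hw v hv f]
    exact ι.apply_symm_apply (ι' (lam ⟨⟨v, hv⟩, sat v f⟩))
  refine q1_of_att hO hs.sl hA hS hφ lam fun ι' => ?_
  obtain ⟨H'⟩ := exists_hatData F ℓ ι'
  exact att_of_approx hs c hO hA hS hφ H' (fun C' => C'.rho = 1) (approx_weight_zero C H') hlam
    fun C' lam' hC' hlam' => hA2 C' lam' hC' hlam' ι'

end

section

variable {F : Type} [Field F] [NumberField F] {n : ℕ} {D : Datum F n} {ℓ : ℕ} [Fact ℓ.Prime]
  {L : Level D ℓ} {ι : ℂ ≃+* PadicAlgCl ℓ}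

theorem IsDense.approx {H : HatData F ℓ ι} {𝒯 : Weight D → SmRep L.K → Prop}
    (h : IsDense H L.K 𝒯) (C : Coeff L) :
    Approx H (fun C' => ∃ V s, 𝒯 V s ∧ C' = pairC L V s) C := by
  refine (approx_of_noZero C H (Weight.triv D) fun k => triv_trace_ne_zero _).trans ?_
  rintro C' ⟨s', rfl⟩ ε hε
  obtain ⟨m, V, s, b, h1, h2⟩ := h s' ε hε
  refine ⟨Fin m, inferInstance, fun j => pairC L (V j) (s j), b, fun j => ⟨V j, s j, h1 j, rfl⟩,
    fun k => ?_⟩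
  have h3 := h2 (k : D.Ad) k.2 _ (isImage_hat (D := D) H (k : D.Ad))
  have h4 : (pairC L (Weight.triv D) s').chi H k = ι (s'.sig (k : D.Ad)⁻¹).trace := by
    rw [pairC_chi]
    change ι (1 : Matrix Unit Unit ℂ).trace * _ = _
    rw [Matrix.trace_one, Fintype.card_unit, Nat.cast_one, map_one, one_mul]
  have h5 : ∀ j, (pairC L (V j) (s j)).chi H k =
      ι (((V j).rho (H.hat D k)).trace * ((s j).sig (k : D.Ad)⁻¹).trace) := fun j => by
    rw [pairC_chi, map_mul]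
  rw [h4]
  simp only [h5]
  exact h3

theorem isDense_of_noZero {H : HatData F ℓ ι} {V : Weight D}
    (hV : ∀ k : L.K, (V.rho (H.hat D k)).trace ≠ 0) (𝒯 : Weight D → SmRep L.K → Prop)
    (h𝒯 : ∀ s, 𝒯 V s) : IsDense H L.K 𝒯 := by
  intro s' ε hε
  obtain ⟨m, C', b, h1, h2⟩ := exists_approx_pair (pairC L (Weight.triv D) s') H V hV hε
  choose s hs using h1
  refine ⟨m, fun _ => V, s, b, fun j => h𝒯 _, fun k hk x hx => ?_⟩
  have hxk : x = H.hat D k := by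
    funext τ
    apply Subtype.ext
    apply Units.ext
    ext i j
    have h3 := hx τ i j
    have h4 := isImage_hat (D := D) H k τ i j
    exact h3.trans h4.symm
  have h6 := h2 ⟨k, hk⟩
  have h4 : (pairC L (Weight.triv D) s').chi H ⟨k, hk⟩ = ι (s'.sig k⁻¹).trace := by
    rw [pairC_chi]
    change ι (1 : Matrix Unit Unit ℂ).trace * _ = _
    rw [Matrix.trace_one, Fintype.card_unit, Nat.cast_one, map_one, one_mul]
  have h5 : ∀ j, (C' j).chi H ⟨k, hk⟩ =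
      ι ((V.rho (H.hat D k)).trace * ((s j).sig k⁻¹).trace) := fun j => by
    rw [hs j, pairC_chi, map_mul]
  rw [h4] at h6
  simp only [h5] at h6
  rw [hxk]
  exact h6

end

theorem main_of_level {F : Type} [Field F] [NumberField F] {n : ℕ} {D : Datum F n}
    {ℓ : ℕ} [Fact ℓ.Prime] (L : Level D ℓ) (hfd : IsFD (Zl ℓ) (D.Rat × L.K) L.X)
    (S : Finset (HeightOneSpectrum (𝓞 F)))
    (hSl : ∀ v : HeightOneSpectrum (𝓞 F), (ℓ : 𝓞 F) ∈ v.asIdeal → v ∈ S)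
    (hgood : ∀ v, v ∉ S → IsGoodAt L.U v)
    {B : Type} [CommRing B] [IsDomain B] [IsPrincipalIdealRing B] [Algebra B ℚ]
    [IsFractionRing B ℚ] [Algebra B (PadicAlgCl ℓ)]
    {O : Type} [CommRing O] [HopfAlgebra B O] [Algebra.FiniteType B O] [Module.Free B O]
    (hO : LinearlyReductive (ℚ ⊗[B] O)) (A : OverB.HopfAction B Gal(AlgebraicClosure F/F) O)
    (hA : IsOpen (A.act.ker : Set Gal(AlgebraicClosure F/F)))
    (hS : ∀ v, v ∉ S → ∀ P u, IsInertiaAt v P u → A.act u = 1)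
    (φ : HeightOneSpectrum (𝓞 F) → Gal(AlgebraicClosure F/F))
    (hφ : ∀ v, v ∉ S → ∃ P : Ideal (𝓞 (AlgebraicClosure F)), IsOver v P ∧
      (IsFrob v P (φ v) ∨ IsFrob v P (φ v)⁻¹))
    (sat : ∀ v, A.inv (φ v) → Hecke L.U v) (hsat : ∀ v f, (sat v f).IsIntegral ℓ)
    {𝓗 : Set (BadHecke ℓ S L.U)} (h𝓗 : IsStable 𝓗)
    (hP : ∀ (ι : ℂ ≃+* PadicAlgCl ℓ) (H : HatData F ℓ ι) (V : Weight D), IsPro ℓ L.K →
      ¬ ℓ ∣ Fintype.card V.J → ∀ k : L.K, (V.rho (H.hat D k)).trace ≠ 0) :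
    List.TFAE [
      ∀ (V : Weight D) (s : SmRep L.K) (lam : ∀ v, Hecke L.U v → ℂ),
        (∃ h ∈ 𝓗, eulerTrace V s lam h ≠ 0) → Q1 ℓ A S φ sat lam,
      ∀ (s : SmRep L.K) (lam : ∀ v, Hecke L.U v → ℂ),
        (∃ h ∈ 𝓗, eulerTrace (Weight.triv D) s lam h ≠ 0) → Q1 ℓ A S φ sat lam,
      ∃ (ι : ℂ ≃+* PadicAlgCl ℓ) (H : HatData F ℓ ι) (𝒯 : Weight D → SmRep L.K → Prop),
        (IsDense H L.K 𝒯 ∨ ∃ V : Weight D, (∀ s, 𝒯 V s) ∧
          (NoZero H V L.K ∨ IsPro ℓ L.K ∧ ¬ ℓ ∣ Fintype.card V.J)) ∧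
        ∀ (V : Weight D) (s : SmRep L.K), 𝒯 V s → ∀ lam : ∀ v, Hecke L.U v → ℂ,
          (∃ h ∈ 𝓗, eulerTrace V s lam h ≠ 0) →
          ∃ r : Gal(AlgebraicClosure F/F) →* A.LGroup (PadicAlgCl ℓ),
            OverB.IsAttachedTo A S φ (fun v f => ι (lam v (sat v f))) r] := by
  classical
  have hgood' : ∀ v, v ∉ S → L.IsGoodAt v := fun v hv => isGoodAt L (hgood v hv)
  have hs : Setup L S := ⟨hSl, hgood', hfd⟩
  have heq : ∀ (V : Weight D) (s : SmRep L.K) (lam : ∀ v, Hecke L.U v → ℂ)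
      (h : BadHecke ℓ S L.U) (c : Comb L S), IsComb h c.a c.T →
      eulerTrace V s lam h = c.tr (pairC L V s) (toD L S lam) :=
    fun V s lam h c hc => eulerTrace_eq hSl hgood hfd lam hc
  tfae_have 1 → 2 := fun h' s lam h1 => h' (Weight.triv D) s lam h1
  tfae_have 2 → 3 := by
    intro h'
    obtain ⟨ι, -⟩ := exists_iso_extending (k := ℚ) ℓ Cardinal.mk_le_aleph0 (algebraMap ℚ ℂ)
      (algebraMap ℚ (PadicAlgCl ℓ))
    obtain ⟨H⟩ := exists_hatData F ℓ ι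
    refine ⟨ι, H, fun V _ => V = Weight.triv D, Or.inr ⟨Weight.triv D, fun _ => rfl,
      Or.inl fun k _ x _ => triv_trace_ne_zero x⟩, ?_⟩
    rintro _ s rfl lam hlam
    rw [attAt_iff' hsat, attAt_iff]
    exact ((q1_iff hsat lam).1 (h' s lam hlam)).att ι
  tfae_have 3 → 1 := by
    rintro ⟨ι, H, 𝒯, hd, h'⟩ V s lam ⟨h, hh, hlam⟩
    have hd' : IsDense H L.K 𝒯 := by
      rcases hd with hd | ⟨V, hV, hV'⟩
      · exact hd
      · refine isDense_of_noZero (V := V) ?_ _ hV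
        rcases hV' with hV' | ⟨h1, h2⟩
        · exact fun k => hV' (k : D.Ad) k.2 _ (isImage_hat (D := D) H (k : D.Ad))
        · exact hP ι H V h1 h2
    rw [q1_iff hsat]
    obtain ⟨J, hJ, a, T, hT⟩ := exists_isComb h
    refine q1_of_dense hs hO hA hS hφ H _ hd'.approx (fun c => ∃ h ∈ 𝓗, IsComb h c.a c.T) ?_ ?_
      ⟨J, hJ, a, T⟩ ⟨h, hh, hT⟩ (pairC L V s) (toD L S lam) ?_
    · rintro c ⟨h₁, hh₁, hc⟩ σ
      exact ⟨_, h𝓗.conj_mem h₁ hh₁ σ, hc.conj σ⟩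
    · rintro c ⟨h₁, hh₁, hc⟩ _ y ⟨V', s', hVs, rfl⟩ hy
      obtain ⟨lam', rfl⟩ := exists_toD S y
      rw [← attAt_iff' hsat]
      refine h' V' s' hVs lam' ⟨h₁, hh₁, ?_⟩
      rw [heq V' s' lam' h₁ c hc]
      exact hy
    · rw [← heq V s lam h ⟨J, hJ, a, T⟩ hT]
      exact hlam
  tfae_finish

end Pool.Agent.Lib.MP_666dc0_nt.EH
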