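import Pool.Agent.Lib.MP_666dc0_nt.EC.Defs

/-!
# EH: traces of Hecke operators at the bad places on the cohomology: definitions
-/

open NumberField IsDedekindDomain
open scoped NumberField

namespace Pool.Agent.Lib.MP_666dc0_nt.EH

open WL EC

variable {F : Type} [Field F] [NumberField F] {n : ℕ} {D : Datum F n}

/-- A Hecke function at the places in `S` that do not divide `ℓ`: a finitely supported complex
function on `G(𝔸_f) / U` which is left invariant under `U` and supported on the classes of elements of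
`G(𝔸_f)` whose components at the places outside `S` and at the places above `ℓ` are trivial. (No
condition is imposed on the algebra of these functions, it need not be commutative.) -/
structure BadHecke (ℓ : ℕ) (S : Finset (HeightOneSpectrum (𝓞 F))) (U : Subgroup D.Ad) : Type where
  /-- the function -/
  fn : (D.Ad ⧸ U) →₀ ℂ
  inv : ∀ u ∈ U, ∀ c, fn (u • c) = fn c
  supp : ∀ c, fn c ≠ 0 → ∃ b : D.Ad, QuotientGroup.mk b = c ∧
    ∀ v : HeightOneSpectrum (𝓞 F), v ∉ S ∨ (ℓ : 𝓞 F) ∈ v.asIdeal → TrivialAt v b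

variable {ℓ : ℕ} {S : Finset (HeightOneSpectrum (𝓞 F))} {U K : Subgroup D.Ad}

/-- The set `𝓗` of Hecke functions is stable under the automorphisms `σ` of `ℂ`: with `h` it contains the
function `σ ∘ h`. -/
def IsStable (𝓗 : Set (BadHecke ℓ S U)) : Prop :=
  ∀ h ∈ 𝓗, ∀ (σ : ℂ ≃+* ℂ) (h' : BadHecke ℓ S U), (∀ c, h'.fn c = σ (h.fn c)) → h' ∈ 𝓗

/-- The Hecke operator of `h`, acting on functions on `G(𝔸_f)` with values in a complex vector space:
`(T_h f)(g) = ∑ h(x) f(g x)`, the sum over `x ∈ G(𝔸_f) / U`. -/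
noncomputable def BadHecke.act (h : BadHecke ℓ S U) {M : Type} [AddCommGroup M] [Module ℂ M]
    (f : D.Ad → M) : D.Ad → M :=
  fun g => h.fn.sum fun c a => a • f (g * Quotient.out c)

variable {V : Weight D} {s : SmRep K} {m : ℕ}

/-- The operator `T_h - a`. -/
noncomputable def opSubH (h : BadHecke ℓ S U) (a : ℂ) (z : Coch V s m) : Coch V s m :=
  fun e => h.act (z e) - a • z e

/-- `z` is a cocycle, and its class in the cohomology is a generalised eigenvector of the Hecke
operators at the places `v ∉ S`, with eigenvalues `lam`, and of `T_h`, with eigenvalue `a`. -/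
def IsGenH [Fact ℓ.Prime] (lam : ∀ v, Hecke U v → ℂ) (h : BadHecke ℓ S U) (a : ℂ)
    (z : Coch V s m) : Prop :=
  IsGen ℓ S lam z ∧ ∃ k : ℕ, IsCob U ((opSubH h a)^[k] z)

variable (V s m)

/-- The multiplicity of the eigenvalue `a` of `T_h` on the generalised eigenspace of `lam` in the
cohomology of degree `m` with coefficients in `V ⊗ s`. -/
noncomputable def multH [Fact ℓ.Prime] (lam : ∀ v, Hecke U v → ℂ) (h : BadHecke ℓ S U)
    (a : ℂ) : ℕ :=
  Set.finrank ℂ (Submodule.Quotient.mk (p := cobSpan V s m U) '' {z | IsGenH lam h a z})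

/-- The trace of `T_h` on the generalised eigenspace of `lam` in the cohomology of degree `m` with
coefficients in `V ⊗ s`: the sum of its eigenvalues, counted with multiplicities. -/
noncomputable def trace [Fact ℓ.Prime] (lam : ∀ v, Hecke U v → ℂ) (h : BadHecke ℓ S U) : ℂ :=
  ∑ᶠ a : ℂ, (multH V s m lam h a : ℂ) * a

/-- The alternating sum over the degree of the traces of `T_h` on the generalised eigenspaces of
`lam` in the cohomology with coefficients in `V ⊗ s`. -/
noncomputable def eulerTrace [Fact ℓ.Prime] (lam : ∀ v, Hecke U v → ℂ) (h : BadHecke ℓ S U) : ℂ :=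
  ∑ᶠ m : ℕ, (-1) ^ m * trace V s m lam h

/-- The characters of the coefficients `V ⊗ s`, `(V, s) ∈ 𝒯`, are dense: the character of every smooth
representation of `K` is, uniformly on `K`, an `ℓ`-adic limit of linear combinations of the characters
of the `V ⊗ s` with `(V, s) ∈ 𝒯`. -/
def IsDense [Fact ℓ.Prime] {ι : ℂ ≃+* PadicAlgCl ℓ} (H : HatData F ℓ ι) (K : Subgroup D.Ad)
    (𝒯 : Weight D → SmRep K → Prop) : Prop :=
  ∀ (s' : SmRep K) (ε : ℝ), 0 < ε → ∃ (m : ℕ) (V : Fin m → Weight D) (s : Fin m → SmRep K)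
    (b : Fin m → PadicAlgCl ℓ), (∀ j, 𝒯 (V j) (s j)) ∧ ∀ k ∈ K, ∀ x, IsImage H k x →
      ‖ι (s'.sig k⁻¹).trace - ∑ j, b j * ι (((V j).rho x).trace * ((s j).sig k⁻¹).trace)‖ ≤ ε

end Pool.Agent.Lib.MP_666dc0_nt.EH
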