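import Pool.Agent.Lib.MP_666dc0_nt.EH.Defs

/-!
# EH, One: the unit of the Hecke algebra and the Euler characteristic
-/

open NumberField IsDedekindDomain
open scoped NumberField

namespace Pool.Agent.Lib.MP_666dc0_nt.EH

open WL EC

variable {F : Type} [Field F] [NumberField F] {n : ℕ} {D : Datum F n}

/-- The unit of the Hecke algebra: the characteristic function of `U`. -/
noncomputable def BadHecke.unit (ℓ : ℕ) (S : Finset (HeightOneSpectrum (𝓞 F)))
    (U : Subgroup D.Ad) : BadHecke ℓ S U :=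
  ⟨Finsupp.single (QuotientGroup.mk 1) 1, by
    classical
    intro u hu c
    have h2 : u • (QuotientGroup.mk 1 : D.Ad ⧸ U) = QuotientGroup.mk 1 := by
      change (QuotientGroup.mk (u * 1) : D.Ad ⧸ U) = QuotientGroup.mk 1
      rw [QuotientGroup.eq, mul_one, mul_one]
      exact U.inv_mem hu
    have h1 : u • c = (QuotientGroup.mk 1 : D.Ad ⧸ U) → c = QuotientGroup.mk 1 := by
      intro h
      rw [← h2] at h
      exact smul_left_cancel u h
    by_cases hc : c = QuotientGroup.mk 1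
    · rw [hc, h2]
    · rw [Finsupp.single_eq_of_ne hc, Finsupp.single_eq_of_ne fun h => hc (h1 h)], by
    classical
    intro c hc
    refine ⟨1, ?_, fun v _ => TrivialAt.one v⟩
    by_contra hne
    exact hc (Finsupp.single_eq_of_ne fun h => hne h.symm)⟩

variable {ℓ : ℕ} {S : Finset (HeightOneSpectrum (𝓞 F))} {U K : Subgroup D.Ad}

theorem isStable_unit : IsStable ({BadHecke.unit ℓ S U} : Set (BadHecke ℓ S U)) := by
  classical
  intro h hh σ h' hc
  rw [Set.mem_singleton_iff] at hh ⊢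
  have h1 : h'.fn = (BadHecke.unit ℓ S U).fn := by
    ext c
    rw [hc c, hh]
    change σ ((Finsupp.single (QuotientGroup.mk 1) (1 : ℂ) : (D.Ad ⧸ U) →₀ ℂ) c) =
      (Finsupp.single (QuotientGroup.mk 1) (1 : ℂ) : (D.Ad ⧸ U) →₀ ℂ) c
    rw [Finsupp.single_apply]
    split_ifs
    · exact map_one σ
    · exact map_zero σ
  cases h'
  cases h1
  rfl

theorem act_unit {M : Type} [AddCommGroup M] [Module ℂ M] {f : D.Ad → M}
    (hf : ∀ g, ∀ u ∈ U, f (g * u) = f g) : (BadHecke.unit ℓ S U).act f = f := by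
  funext g
  change (Finsupp.single (QuotientGroup.mk (1 : D.Ad) : D.Ad ⧸ U) (1 : ℂ)).sum
    (fun c a => a • f (g * Quotient.out c)) = f g
  rw [Finsupp.sum_single_index (by rw [zero_smul]), one_smul]
  refine hf g _ ?_
  have h1 : (QuotientGroup.mk (Quotient.out (QuotientGroup.mk (1 : D.Ad) : D.Ad ⧸ U) : D.Ad) :
      D.Ad ⧸ U) = QuotientGroup.mk 1 := QuotientGroup.out_eq' _
  rw [QuotientGroup.eq, mul_one] at h1
  exact (U.inv_mem_iff).1 h1

variable {V : Weight D} {s : SmRep K} {m : ℕ}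

theorem IsCochain.right {z : Coch V s m} (hz : IsCochain U z) (e : Fin (m + 1) → D.Rat)
    (g : D.Ad) (u : D.Ad) (hu : u ∈ U) : z e (g * u) = z e g := by
  have h := hz 1 e g u hu 1 K.one_mem
  simpa [V.one, s.one] using h

theorem IsCochain.smul {z : Coch V s m} (hz : IsCochain U z) (c : ℂ) : IsCochain U (c • z) := by
  intro γ e g u hu k hk
  change c • z (fun i => γ * e i) (D.toAd γ * g * u * k) = V.rho (D.toCpx γ) * (c • z e g) * s.sig k
  rw [hz γ e g u hu k hk, Matrix.mul_smul, Matrix.smul_mul]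

theorem IsCob.smul {z : Coch V s m} (hz : IsCob U z) (c : ℂ) : IsCob U (c • z) := by
  cases m with
  | zero =>
    have h1 : z = 0 := hz
    change c • z = 0
    rw [h1, smul_zero]
  | succ m =>
    obtain ⟨y, hy, rfl⟩ := hz
    refine ⟨c • y, IsCochain.smul hy c, ?_⟩
    funext e g
    change c • (∑ i : Fin (m + 2), (-1 : ℂ) ^ (i : ℕ) • y (fun j => e (i.succAbove j)) g) =
      ∑ i : Fin (m + 2), (-1 : ℂ) ^ (i : ℕ) • (c • y (fun j => e (i.succAbove j)) g)
    rw [Finset.smul_sum]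
    exact Finset.sum_congr rfl fun i _ => smul_comm _ _ _

theorem isCob_zero : IsCob U (0 : Coch V s m) := by
  cases m with
  | zero => exact rfl
  | succ m =>
    refine ⟨0, fun γ e g u _ k _ => ?_, ?_⟩
    · change (0 : Matrix V.J s.J ℂ) = V.rho (D.toCpx γ) * 0 * s.sig k
      rw [Matrix.mul_zero, Matrix.zero_mul]
    · funext e g
      change (0 : Matrix V.J s.J ℂ) = ∑ i : Fin (m + 2), (-1 : ℂ) ^ (i : ℕ) • 0
      simp

theorem opSub_unit {z : Coch V s m} (hz : ∀ e g, ∀ u ∈ U, z e (g * u) = z e g) (a : ℂ) :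
    opSubH (BadHecke.unit ℓ S U) a z = (1 - a) • z := by
  funext e
  change (BadHecke.unit ℓ S U).act (z e) - a • z e = (1 - a) • z e
  rw [act_unit (hz e), sub_smul, one_smul]

theorem iter_unit {z : Coch V s m} (hz : ∀ e g, ∀ u ∈ U, z e (g * u) = z e g) (a : ℂ) (k : ℕ) :
    (opSubH (BadHecke.unit ℓ S U) a)^[k] z = (1 - a) ^ k • z := by
  induction k with
  | zero => rw [pow_zero, one_smul]; rfl
  | succ k ih =>
    rw [Function.iterate_succ_apply', ih, opSub_unit, smul_smul, pow_succ']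
    intro e g u hu
    change (1 - a) ^ k • z e (g * u) = (1 - a) ^ k • z e g
    rw [hz e g u hu]

variable [Fact ℓ.Prime]

theorem isGenH_unit (lam : ∀ v, Hecke U v → ℂ) (a : ℂ) (z : Coch V s m) :
    IsGenH lam (BadHecke.unit ℓ S U) a z ↔ IsGen ℓ S lam z ∧ (a = 1 ∨ IsCob U z) := by
  unfold IsGenH
  refine and_congr_right fun hz => ?_
  have hz' : ∀ e g, ∀ u ∈ U, z e (g * u) = z e g := fun e g u hu => IsCochain.right hz.1 e g u hu
  constructor
  · rintro ⟨k, hk⟩
    by_cases ha : a = 1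
    · exact Or.inl ha
    · right
      rw [iter_unit hz'] at hk
      have h1 := IsCob.smul hk ((1 - a) ^ k)⁻¹
      have h2 : (1 - a) ^ k ≠ 0 := pow_ne_zero _ (sub_ne_zero.2 fun h => ha h.symm)
      rwa [smul_smul, inv_mul_cancel₀ h2, one_smul] at h1
  · rintro (rfl | h)
    · refine ⟨1, ?_⟩
      rw [iter_unit hz', sub_self, pow_one, zero_smul]
      exact isCob_zero
    · exact ⟨0, h⟩

theorem multH_unit_one (lam : ∀ v, Hecke U v → ℂ) :
    multH V s m lam (BadHecke.unit ℓ S U) 1 = mult V s m ℓ S lam := by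
  unfold multH mult
  congr 3
  ext z
  change IsGenH lam (BadHecke.unit ℓ S U) 1 z ↔ IsGen ℓ S lam z
  rw [isGenH_unit]
  exact ⟨fun h => h.1, fun h => ⟨h, Or.inl rfl⟩⟩

theorem multH_unit_ne (lam : ∀ v, Hecke U v → ℂ) {a : ℂ} (ha : a ≠ 1) :
    multH V s m lam (BadHecke.unit ℓ S U) a = 0 := by
  unfold multH Set.finrank
  have h1 : Submodule.span ℂ (Submodule.Quotient.mk (p := cobSpan V s m U) ''
      {z | IsGenH lam (BadHecke.unit ℓ S U) a z}) = ⊥ := by
    rw [Submodule.span_eq_bot]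
    rintro _ ⟨z, hz, rfl⟩
    have h2 := ((isGenH_unit lam a z).1 hz).2.resolve_left ha
    rw [Submodule.Quotient.mk_eq_zero]
    exact Submodule.subset_span h2
  rw [h1, finrank_bot]

theorem trace_unit (lam : ∀ v, Hecke U v → ℂ) :
    trace V s m lam (BadHecke.unit ℓ S U) = mult V s m ℓ S lam := by
  unfold trace
  rw [finsum_eq_single _ (1 : ℂ), multH_unit_one, mul_one]
  intro a ha
  rw [multH_unit_ne lam ha, Nat.cast_zero, zero_mul]

/-- For the unit of the Hecke algebra `eulerTrace` is the Euler characteristic. -/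
theorem eulerTrace_unit (lam : ∀ v, Hecke U v → ℂ) :
    eulerTrace V s lam (BadHecke.unit ℓ S U) = euler V s ℓ S lam := by
  unfold eulerTrace euler
  have h1 := (Int.castAddHom ℂ).map_finsum_of_injective Int.cast_injective
    fun m : ℕ => (-1) ^ m * (mult V s m ℓ S lam : ℤ)
  change ((∑ᶠ m : ℕ, (-1) ^ m * (mult V s m ℓ S lam : ℤ) : ℤ) : ℂ) = _ at h1
  rw [h1]
  refine finsum_congr fun m => ?_
  rw [trace_unit]
  change _ = (((-1) ^ m * (mult V s m ℓ S lam : ℤ) : ℤ) : ℂ)
  push_cast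
  rfl

end Pool.Agent.Lib.MP_666dc0_nt.EH
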